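import Pool.Agent.Helper570.NCS.Compl

set_option autoImplicit false

namespace Pool.Helper570.Hyp

open Filter Topology NormedSpace Pool.Helper570.NCS

theorem exists_seq_finset {α : Type*} [DecidableEq α] (Q : Finset α → α → Prop)
    (h : ∀ s, ∃ y, Q s y) : ∃ f : ℕ → α, ∀ n, Q ((Finset.range n).image f) (f n) := by
  choose g hg using h
  let S : ℕ → Finset α := fun n => Nat.rec ∅ (fun _ s => insert (g s) s) n
  have hS0 : S 0 = ∅ := rfl
  have hS1 : ∀ n, S (n + 1) = insert (g (S n)) (S n) := fun n => rfl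
  have hS : ∀ n, (Finset.range n).image (fun k => g (S k)) = S n := by
    intro n
    induction n with
    | zero => rw [hS0, Finset.range_zero, Finset.image_empty]
    | succ n ih => rw [hS1, Finset.range_add_one, Finset.image_insert, ih]
  refine ⟨fun k => g (S k), fun n => ?_⟩
  rw [hS n]
  exact hg (S n)

theorem exists_norming {X : Type*} [NormedAddCommGroup X] [NormedSpace ℝ X] (s : Finset X) :
    ∃ G : Finset (X →L[ℝ] ℝ), (∀ f ∈ G, ‖f‖ ≤ 1) ∧
      ∀ x ∈ Submodule.span ℝ (s : Set X), ∃ f ∈ G, ‖x‖ ≤ 2 * |f x| := by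
  classical
  set W := Submodule.span ℝ (s : Set X) with hW
  have _ : FiniteDimensional ℝ W := FiniteDimensional.span_finset ℝ s
  have _ : ProperSpace W := FiniteDimensional.proper ℝ W
  obtain ⟨t, ht1, ht2, ht3⟩ := (isCompact_sphere (0 : W) 1).finite_cover_balls
    (show (0 : ℝ) < 1 / 2 by norm_num)
  choose φ hφ1 hφ2 using fun x : X => exists_dual_vector'' ℝ x
  refine ⟨insert 0 (ht2.toFinset.image (fun y : W => φ (y : X))), ?_, ?_⟩
  · intro f hf
    rw [Finset.mem_insert] at hf
    rcases hf with rfl | hf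
    · rw [norm_zero]; exact zero_le_one
    · rw [Finset.mem_image] at hf
      obtain ⟨y, -, rfl⟩ := hf
      exact hφ1 _
  · intro x hx
    by_cases hx0 : x = 0
    · exact ⟨0, Finset.mem_insert_self _ _, by rw [hx0, norm_zero]; positivity⟩
    · have hn : 0 < ‖x‖ := norm_pos_iff.2 hx0
      have hx' : (‖x‖⁻¹ • (⟨x, hx⟩ : W)) ∈ Metric.sphere (0 : W) 1 := by
        rw [mem_sphere_zero_iff_norm, norm_smul, norm_inv, norm_norm]
        show ‖x‖⁻¹ * ‖x‖ = 1
        exact inv_mul_cancel₀ hn.ne'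
      have h1 := ht3 hx'
      rw [Set.mem_iUnion₂] at h1
      obtain ⟨y, hy, hxy⟩ := h1
      rw [Metric.mem_ball, dist_eq_norm] at hxy
      have hxy' : ‖‖x‖⁻¹ • x - (y : X)‖ < 1 / 2 := hxy
      have hyn : ‖(y : X)‖ = 1 := by
        have := ht1 hy
        rwa [mem_sphere_zero_iff_norm] at this
      refine ⟨φ (y : X), Finset.mem_insert_of_mem (Finset.mem_image_of_mem _
        (ht2.mem_toFinset.2 hy)), ?_⟩
      have h2 : |φ (y : X) (‖x‖⁻¹ • x - (y : X))| ≤ 1 / 2 := by
        have h3 := (φ (y : X)).le_opNorm (‖x‖⁻¹ • x - (y : X))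
        rw [Real.norm_eq_abs] at h3
        refine h3.trans ?_
        calc ‖φ (y : X)‖ * ‖‖x‖⁻¹ • x - (y : X)‖ ≤ 1 * (1 / 2) :=
              mul_le_mul (hφ1 _) hxy'.le (norm_nonneg _) zero_le_one
          _ = 1 / 2 := by norm_num
      have h4 : φ (y : X) (y : X) = 1 := by
        rw [hφ2, hyn]; rfl
      rw [map_sub, map_smul, smul_eq_mul, h4] at h2
      have h5 := (abs_le.1 h2).1
      have h6 : 1 / 2 ≤ ‖x‖⁻¹ * |φ (y : X) x| := by
        have : ‖x‖⁻¹ * φ (y : X) x ≤ ‖x‖⁻¹ * |φ (y : X) x| :=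
          mul_le_mul_of_nonneg_left (le_abs_self _) (by positivity)
        linarith
      have h7 := mul_le_mul_of_nonneg_left h6 hn.le
      rw [← mul_assoc, mul_inv_cancel₀ hn.ne', one_mul] at h7
      linarith

/-- basic sequences with constant two -/
def Bas {X : Type*} [NormedAddCommGroup X] [NormedSpace ℝ X] (v : ℕ → X) : Prop :=
  ∀ (a : ℕ → ℝ) (n m : ℕ), n ≤ m →
    ‖∑ i ∈ Finset.range n, a i • v i‖ ≤ 2 * ‖∑ i ∈ Finset.range m, a i • v i‖

theorem Bas.subseq {X : Type*} [NormedAddCommGroup X] [NormedSpace ℝ X] {v : ℕ → X}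
    (h : Bas v) (φ : ℕ → ℕ) (hφ : StrictMono φ) : Bas (fun i => v (φ i)) := by
  classical
  intro a n m hnm
  have key : ∀ n, ∑ i ∈ Finset.range n, a i • v (φ i)
      = ∑ j ∈ Finset.range (φ n), (Function.extend φ a 0) j • v j := by
    intro n
    have h1 : ∑ i ∈ Finset.range n, a i • v (φ i)
        = ∑ j ∈ (Finset.range n).map ⟨φ, hφ.injective⟩, (Function.extend φ a 0) j • v j := by
      rw [Finset.sum_map]
      apply Finset.sum_congr rfl
      intro i _
      rw [Function.Embedding.coeFn_mk, hφ.injective.extend_apply]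
    rw [h1]
    apply Finset.sum_subset
    · intro j hj
      rw [Finset.mem_map] at hj
      obtain ⟨i, hi, rfl⟩ := hj
      rw [Finset.mem_range] at hi ⊢
      exact hφ hi
    · intro j hj hj2
      rw [Finset.mem_range] at hj
      have : Function.extend φ a 0 j = 0 := by
        by_cases he : ∃ i, φ i = j
        · obtain ⟨i, rfl⟩ := he
          exfalso
          apply hj2
          rw [Finset.mem_map]
          exact ⟨i, Finset.mem_range.2 (hφ.lt_iff_lt.1 hj), rfl⟩
        · rw [Function.extend_apply' _ _ _ he]; rfl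
      rw [this, zero_smul]
  rw [key n, key m]
  exact h _ _ _ (hφ.monotone hnm)

theorem exists_basic {X : Type*} [NormedAddCommGroup X] [NormedSpace ℝ X]
    (hX : ¬ FiniteDimensional ℝ X) [TopologicalSpace.SeparableSpace (X →L[ℝ] ℝ)] :
    ∃ v : ℕ → X, (∀ i, ‖v i‖ = 1) ∧ Bas v ∧
      ∀ f : X →L[ℝ] ℝ, Tendsto (fun i => f (v i)) atTop (𝓝 0) := by
  classical
  have _ : Nonempty (X →L[ℝ] ℝ) := ⟨0⟩
  let fd : ℕ → X →L[ℝ] ℝ := TopologicalSpace.denseSeq (X →L[ℝ] ℝ)
  choose G hG1 hG2 using fun s : Finset X => exists_norming s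
  obtain ⟨v, hv⟩ := exists_seq_finset (fun (s : Finset X) (y : X) => ‖y‖ = 1 ∧ y ∉ s ∧
      (∀ s', s' ⊆ s → ∀ f ∈ G s', f y = 0) ∧ ∀ j < s.card, fd j y = 0) (by
    intro s
    obtain ⟨y, hy1, hy2⟩ := exists_common_zero hX
      ((s.powerset.biUnion G) ∪ (Finset.range s.card).image fd)
    refine ⟨y, hy1, ?_, ?_, ?_⟩
    · intro hys
      obtain ⟨f, hf, hfy⟩ := hG2 s y (Submodule.subset_span hys)
      have := hy2 f (Finset.mem_union_left _ (Finset.mem_biUnion.2
        ⟨s, Finset.mem_powerset_self s, hf⟩))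
      rw [this, abs_zero, hy1] at hfy
      linarith
    · intro s' hs' f hf
      exact hy2 f (Finset.mem_union_left _ (Finset.mem_biUnion.2
        ⟨s', Finset.mem_powerset.2 hs', hf⟩))
    · intro j hj
      exact hy2 _ (Finset.mem_union_right _ (Finset.mem_image_of_mem _ (Finset.mem_range.2 hj))))
  have hinj : Function.Injective v := by
    have h1 : ∀ i j, i < j → v i ≠ v j := by
      intro i j hij he
      apply (hv j).2.1
      rw [← he]
      exact Finset.mem_image_of_mem _ (Finset.mem_range.2 hij)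
    intro i j he
    rcases lt_trichotomy i j with h | h | h
    · exact absurd he (h1 i j h)
    · exact h
    · exact absurd he.symm (h1 j i h)
  refine ⟨v, fun i => (hv i).1, ?_, ?_⟩
  · intro a n m hnm
    have hmem : ∑ i ∈ Finset.range n, a i • v i ∈
        Submodule.span ℝ (((Finset.range n).image v : Finset X) : Set X) := by
      apply Submodule.sum_mem
      intro i hi
      exact Submodule.smul_mem _ _ (Submodule.subset_span (Finset.mem_coe.2
        (Finset.mem_image_of_mem _ hi)))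
    obtain ⟨f, hf, hfx⟩ := hG2 _ _ hmem
    have e : f (∑ i ∈ Finset.range m, a i • v i) = f (∑ i ∈ Finset.range n, a i • v i) := by
      rw [map_sum, map_sum]
      symm
      apply Finset.sum_subset (Finset.range_mono hnm)
      intro i _ hi
      rw [Finset.mem_range, not_lt] at hi
      rw [map_smul, (hv i).2.2.1 _ (Finset.image_subset_image (Finset.range_mono hi)) f hf,
        smul_zero]
    refine hfx.trans ?_
    rw [← e]
    have h3 := f.le_opNorm (∑ i ∈ Finset.range m, a i • v i)
    rw [Real.norm_eq_abs] at h3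
    have h4 := mul_le_mul_of_nonneg_right (hG1 _ f hf) (norm_nonneg (∑ i ∈ Finset.range m, a i • v i))
    linarith
  · intro f
    rw [Metric.tendsto_atTop]
    intro ε hε
    obtain ⟨j, hj⟩ := (TopologicalSpace.denseRange_denseSeq (X →L[ℝ] ℝ)).exists_dist_lt f hε
    refine ⟨j + 1, fun i hi => ?_⟩
    have h1 : fd j (v i) = 0 := by
      apply (hv i).2.2.2
      rw [Finset.card_image_of_injective _ hinj, Finset.card_range]
      omega
    have h2 : f (v i) = (f - fd j) (v i) := by
      rw [ContinuousLinearMap.sub_apply, h1, sub_zero]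
    rw [dist_zero_right, h2]
    have h3 := (f - fd j).le_opNorm (v i)
    rw [(hv i).1, mul_one] at h3
    refine lt_of_le_of_lt h3 ?_
    rw [dist_eq_norm] at hj
    exact hj

end Pool.Helper570.Hyp
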