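import Pool.Agent.Helper570.Hyp.Exact
import Pool.Agent.Helper570.NCS.CaseA

set_option autoImplicit false

namespace Pool.Helper570.Hyp

open Filter Topology NormedSpace Pool.Helper570.NCS

/-- bounded sequences of functionals on a separable space have pointwise convergent subsequences -/
theorem exists_pointwise_limit {X : Type*} [NormedAddCommGroup X] [NormedSpace ℝ X]
    [CompleteSpace X] [TopologicalSpace.SeparableSpace X]
    (h : ℕ → StrongDual ℝ X) (hh : ∀ n, ‖h n‖ ≤ 1) :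
    ∃ (ψ : ℕ → ℕ) (g : StrongDual ℝ X), StrictMono ψ ∧
      ∀ x : X, Tendsto (fun n => h (ψ n) x) atTop (𝓝 (g x)) := by
  have _ : Nonempty X := ⟨0⟩
  have hb : ∀ n x, |h n x| ≤ ‖x‖ := by
    intro n x
    have h1 := (h n).le_opNorm x
    have h2 := mul_le_mul_of_nonneg_right (hh n) (norm_nonneg x)
    rw [Real.norm_eq_abs] at h1
    linarith
  let xs := TopologicalSpace.denseSeq X
  obtain ⟨a, -, ψ, hψ, hlim⟩ := (isCompact_univ_pi fun k : ℕ =>
    isCompact_closedBall (0 : ℝ) ‖xs k‖).tendsto_subseq (x := fun n k => h n (xs k)) (by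
      intro n k _
      rw [Metric.mem_closedBall, dist_zero_right, Real.norm_eq_abs]
      exact hb n _)
  have hk : ∀ k, Tendsto (fun n => h (ψ n) (xs k)) atTop (𝓝 (a k)) := by
    intro k
    exact (tendsto_pi_nhds.1 hlim) k
  have hcs : ∀ x : X, CauchySeq fun n => h (ψ n) x := by
    intro x
    rw [Metric.cauchySeq_iff]
    intro ε hε
    obtain ⟨k, hxk⟩ := (TopologicalSpace.denseRange_denseSeq X).exists_dist_lt x
      (show 0 < ε / 4 by positivity)
    rw [dist_eq_norm] at hxk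
    obtain ⟨n, hn⟩ := Metric.cauchySeq_iff.1 (hk k).cauchySeq (ε / 4) (by positivity)
    refine ⟨n, fun i hi j hj => ?_⟩
    have h1 := hn i hi j hj
    rw [Real.dist_eq] at h1 ⊢
    have h2 := hb (ψ i) (x - xs k)
    have h3 := hb (ψ j) (x - xs k)
    rw [map_sub] at h2 h3
    rw [abs_lt] at h1 ⊢
    rw [abs_le] at h2 h3
    change ‖x - xs k‖ < ε / 4 at hxk
    constructor <;> linarith [h1.1, h1.2, h2.1, h2.2, h3.1, h3.2]
  choose g₀ hg₀ using fun x => cauchySeq_tendsto_of_complete (hcs x)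
  refine ⟨ψ, continuousLinearMapOfTendsto (fun n => h (ψ n)) (tendsto_pi_nhds.2 hg₀), hψ, ?_⟩
  intro x
  exact hg₀ x

theorem iso_of_wuc {X : Type*} [NormedAddCommGroup X] [NormedSpace ℝ X]
    [CompleteSpace X] [TopologicalSpace.SeparableSpace X]
    (u : ℕ → X) (B δ : ℝ) (hB : 0 ≤ B) (hδ : 0 < δ) (hu : WUC u B) (hlow : ∀ n, δ ≤ ‖u n‖)
    (φ : X →L[ℝ] ℝ) (hφ : φ ≠ 0) :
    Nonempty (X ≃L[ℝ] ↥(LinearMap.ker φ.toLinearMap)) := by
  classical
  choose h hh1 hh2 using fun n => exists_dual_vector'' ℝ (u n)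
  obtain ⟨ψ, g, hψ, hg⟩ := exists_pointwise_limit h hh1
  let d : ℕ → StrongDual ℝ X := fun k => h (ψ k) - g
  let v : ℕ → X := fun k => u (ψ k)
  have hv : WUC v B := hu.subseq ψ hψ.injective
  have hd0 : ∀ x, Tendsto (fun k => d k x) atTop (𝓝 0) := by
    intro x
    have := (hg x).sub_const (g x)
    rw [sub_self] at this
    exact this
  have hdn : ∀ k, ‖d k‖ ≤ 1 + ‖g‖ := by
    intro k
    have h1 := norm_sub_le (h (ψ k)) g
    have h2 := hh1 (ψ k)
    show ‖h (ψ k) - g‖ ≤ 1 + ‖g‖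
    linarith
  have hdv : ∀ᶠ k in atTop, δ / 2 ≤ d k (v k) := by
    have h1 := hv.tendsto g
    have h2 : ∀ᶠ k in atTop, |g (v k)| < δ / 2 := by
      have := (Metric.tendsto_atTop.1 h1) (δ / 2) (by positivity)
      obtain ⟨n, hn⟩ := this
      filter_upwards [eventually_ge_atTop n] with j hj
      simpa [Real.dist_eq] using hn j hj
    filter_upwards [h2] with k hk
    have h3 : d k (v k) = ‖u (ψ k)‖ - g (v k) := by
      show h (ψ k) (u (ψ k)) - g (u (ψ k)) = _
      rw [hh2]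
      rfl
    have h4 := hlow (ψ k)
    rw [h3]
    have := (abs_lt.1 hk).2
    linarith
  obtain ⟨k₀, hk₀⟩ := eventually_atTop.1 hdv
  have hinj : Function.Injective fun k => k + k₀ := add_left_injective k₀
  have hmono : StrictMono fun k => k + k₀ := fun a b hab => Nat.add_lt_add_right hab k₀
  have hv' : WUC (fun k => v (k + k₀)) B := hv.subseq _ hinj
  refine iso_of_almost (fun k => v (k + k₀)) (fun k => d (k + k₀)) B (1 + ‖g‖) (δ / 2)
    (by positivity) (fun k => hv'.norm_le hB k) (fun k => hdn _) (fun f => hv'.tendsto f)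
    (fun x => (hd0 x).comp hmono.tendsto_atTop) (fun k => hk₀ _ (Nat.le_add_left _ _)) ?_ φ hφ
  intro κ κ' c C hκ hκ' hc x
  apply (hv'.subseq κ' hκ'.injective).summable hB
  have h1 : Tendsto (fun n => d (κ n + k₀) x) atTop (𝓝 0) :=
    ((hd0 x).comp hmono.tendsto_atTop).comp hκ.tendsto_atTop
  apply squeeze_zero_norm (a := fun n => C * |d (κ n + k₀) x|)
  · intro n
    rw [Real.norm_eq_abs, abs_mul]
    exact mul_le_mul_of_nonneg_right (hc n) (abs_nonneg _)
  · have := (h1.abs).const_mul C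
    simpa using this

end Pool.Helper570.Hyp
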