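import Pool.Agent.Helper570.Hyp.Basic

set_option autoImplicit false

namespace Pool.Helper570.Hyp

open Filter Topology

/-- the real sign attached to a boolean -/
noncomputable def sg (b : Bool) : ℝ := if b then 1 else -1

theorem sg_true : sg true = 1 := by simp [sg]

theorem sg_false : sg false = -1 := by simp [sg]

theorem sg_abs (b : Bool) : |sg b| = 1 := by
  cases b
  · rw [sg_false]; norm_num
  · rw [sg_true]; norm_num

theorem sg_mul_self (b : Bool) : sg b * sg b = 1 := by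
  cases b
  · rw [sg_false]; norm_num
  · rw [sg_true]; norm_num

theorem sg_beq (a b : Bool) : sg (a == b) = sg a * sg b := by
  cases a <;> cases b <;> simp [sg]

/-- the greedy walk -/
theorem walk {X : Type*} [NormedAddCommGroup X] [NormedSpace ℝ X] (ψ : X → ℝ) (r M σ : ℝ)
    (hr : 0 < r) (hM : 0 < M) (hσ : 0 < σ) (h0 : ψ 0 = 0) (h1 : ∀ y, r ≤ ‖y‖ → 1 ≤ ψ y)
    (h2 : ∀ y u, ‖y‖ ≤ r → ‖u‖ ≤ σ → ψ (y + u) + ψ (y - u) - 2 * ψ y ≤ M * ‖u‖ ^ 2) :
    ∃ m : ℕ, 0 < m ∧ ∀ R : ℕ → X, (∀ k, ‖R k‖ ≤ 2) →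
      ∃ η : ℕ → Bool, ‖∑ k ∈ Finset.range m, sg (η k) • R k‖ < m / 4 := by
  classical
  obtain ⟨m, hm⟩ := exists_nat_gt (max (8 * r / σ) (32 * M * r ^ 2))
  have hm1 : 8 * r / σ < m := lt_of_le_of_lt (le_max_left _ _) hm
  have hm2 : 32 * M * r ^ 2 < m := lt_of_le_of_lt (le_max_right _ _) hm
  have hm0 : (0 : ℝ) < m := lt_of_le_of_lt (by positivity) hm1
  refine ⟨m, by exact_mod_cast hm0, fun R hR => ?_⟩
  set t : ℝ := 4 * r / m with ht
  have ht0 : 0 < t := by positivity
  set q : ℝ := 32 * M * r ^ 2 / m ^ 2 with hq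
  have hq0 : 0 < q := by positivity
  have hmq : m * q < 1 := by
    have : m * q = 32 * M * r ^ 2 / m := by
      rw [hq]; field_simp
    rw [this, div_lt_one hm0]
    exact hm2
  have key : ∀ k : ℕ, k ≤ m → ∃ η : ℕ → Bool,
      ‖t • ∑ j ∈ Finset.range k, sg (η j) • R j‖ < r ∧
      ψ (t • ∑ j ∈ Finset.range k, sg (η j) • R j) ≤ k * q := by
    intro k
    induction k with
    | zero =>
      intro _
      refine ⟨fun _ => true, ?_, ?_⟩
      · rw [Finset.range_zero, Finset.sum_empty, smul_zero, norm_zero]; exact hr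
      · rw [Finset.range_zero, Finset.sum_empty, smul_zero, h0]; simp
    | succ k ih =>
      intro hk
      obtain ⟨η, hη1, hη2⟩ := ih (by omega)
      set S := t • ∑ j ∈ Finset.range k, sg (η j) • R j with hS
      have hu : ‖t • R k‖ ≤ 8 * r / m := by
        rw [norm_smul, Real.norm_eq_abs, abs_of_pos ht0]
        calc t * ‖R k‖ ≤ t * 2 := mul_le_mul_of_nonneg_left (hR k) ht0.le
          _ = 8 * r / m := by rw [ht]; ring
      have huσ : ‖t • R k‖ ≤ σ := by
        refine hu.trans ?_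
        rw [div_le_iff₀ hm0]
        rw [div_lt_iff₀ hσ] at hm1
        linarith
      have h3 := h2 S (t • R k) hη1.le huσ
      have h4 : M * ‖t • R k‖ ^ 2 ≤ 2 * q := by
        calc M * ‖t • R k‖ ^ 2 ≤ M * (8 * r / m) ^ 2 :=
              mul_le_mul_of_nonneg_left (pow_le_pow_left₀ (norm_nonneg _) hu 2) hM.le
          _ = 2 * q := by rw [hq]; ring
      obtain ⟨b, hb⟩ : ∃ b : Bool, ψ (S + sg b • (t • R k)) ≤ ψ S + q := by
        by_contra hcon
        push Not at hcon
        have a1 := hcon true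
        have a2 := hcon false
        rw [sg_true, one_smul] at a1
        rw [sg_false, neg_one_smul, ← sub_eq_add_neg] at a2
        linarith
      have e : t • ∑ j ∈ Finset.range (k + 1), sg ((Function.update η k b) j) • R j
          = S + sg b • (t • R k) := by
        rw [Finset.sum_range_succ, Function.update_self, smul_add, hS]
        congr 1
        · congr 1
          apply Finset.sum_congr rfl
          intro j hj
          rw [Function.update_of_ne (Finset.mem_range.1 hj).ne]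
        · rw [smul_comm]
      have hψ : ψ (S + sg b • (t • R k)) ≤ ((k + 1 : ℕ) : ℝ) * q := by
        push_cast
        linarith
      refine ⟨Function.update η k b, ?_, ?_⟩
      · rw [e]
        by_contra hcon
        push Not at hcon
        have h5 := h1 _ hcon
        have h6 : ((k + 1 : ℕ) : ℝ) * q ≤ m * q :=
          mul_le_mul_of_nonneg_right (by exact_mod_cast hk) hq0.le
        linarith
      · rw [e]; exact hψ
  obtain ⟨η, hη1, -⟩ := key m le_rfl
  refine ⟨η, ?_⟩
  rw [norm_smul, Real.norm_eq_abs, abs_of_pos ht0] at hη1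
  have h3 : t * ((m : ℝ) / 4) = r := by
    rw [ht]; field_simp
  rw [← h3] at hη1
  exact lt_of_mul_lt_mul_left hη1 ht0.le

theorem lemA {X : Type*} [NormedAddCommGroup X] [NormedSpace ℝ X] (m : ℕ)
    (hm : ∀ R : ℕ → X, (∀ k, ‖R k‖ ≤ 2) →
      ∃ η : ℕ → Bool, ‖∑ k ∈ Finset.range m, sg (η k) • R k‖ < m / 4)
    (x : ℕ → X) (hx : Bas x) (hx1 : ∀ i, 1 ≤ ‖x i‖) :
    ∃ ε : ℕ → Bool, 2 ≤ ‖∑ i ∈ Finset.range (2 ^ m), sg (ε i) • x i‖ := by
  classical
  by_contra hcon
  push Not at hcon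
  obtain ⟨η, hη⟩ := hm (fun k => ∑ i ∈ Finset.range (2 ^ m), sg (i.testBit k) • x i)
    (fun k => (hcon _).le)
  set i₀ : ℕ := Nat.ofBits (fun k : Fin m => η k) with hi₀
  have hlt : i₀ < 2 ^ m := Nat.ofBits_lt_two_pow _
  set a : ℕ → ℝ := fun i => ∑ k ∈ Finset.range m, sg (η k) * sg (i.testBit k) with ha
  have e : ∑ k ∈ Finset.range m, sg (η k) • ∑ i ∈ Finset.range (2 ^ m), sg (i.testBit k) • x i
      = ∑ i ∈ Finset.range (2 ^ m), a i • x i := by
    simp_rw [Finset.smul_sum, smul_smul]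
    rw [Finset.sum_comm]
    apply Finset.sum_congr rfl
    intro i _
    rw [ha, Finset.sum_smul]
  have ha0 : a i₀ = m := by
    rw [ha]
    have : ∀ k ∈ Finset.range m, sg (η k) * sg (i₀.testBit k) = 1 := by
      intro k hk
      rw [Finset.mem_range] at hk
      rw [hi₀, Nat.testBit_ofBits_lt _ k hk]
      exact sg_mul_self _
    show ∑ k ∈ Finset.range m, sg (η k) * sg (i₀.testBit k) = m
    rw [Finset.sum_congr rfl this]
    simp
  have hη' : ‖∑ i ∈ Finset.range (2 ^ m), a i • x i‖ < m / 4 := by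
    rw [← e]; exact hη
  have h1 := hx a (i₀ + 1) (2 ^ m) (by omega)
  have h2 := hx a i₀ (2 ^ m) (by omega)
  have h3 : a i₀ • x i₀ = ∑ i ∈ Finset.range (i₀ + 1), a i • x i
      - ∑ i ∈ Finset.range i₀, a i • x i := by
    rw [Finset.sum_range_succ]; abel
  have h4 : ‖a i₀ • x i₀‖ ≤ ‖∑ i ∈ Finset.range (i₀ + 1), a i • x i‖
      + ‖∑ i ∈ Finset.range i₀, a i • x i‖ := by
    rw [h3]; exact norm_sub_le _ _
  rw [norm_smul, ha0, Real.norm_eq_abs, abs_of_nonneg (Nat.cast_nonneg m)] at h4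
  have h5 : (m : ℝ) * 1 ≤ m * ‖x i₀‖ :=
    mul_le_mul_of_nonneg_left (hx1 i₀) (Nat.cast_nonneg m)
  linarith

theorem sum_range_block {X : Type*} [AddCommMonoid X] (f : ℕ → X) (L n : ℕ) :
    ∑ i ∈ Finset.range (n * L), f i
      = ∑ j ∈ Finset.range n, ∑ i ∈ Finset.range L, f (j * L + i) := by
  induction n with
  | zero => simp
  | succ n ih => rw [Nat.succ_mul, Finset.sum_range_add, ih, Finset.sum_range_succ]

theorem Bas.block {X : Type*} [NormedAddCommGroup X] [NormedSpace ℝ X] {w : ℕ → X}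
    (hw : Bas w) (L : ℕ) (hL : 0 < L) (e : ℕ → ℝ) :
    Bas (fun j => ∑ i ∈ Finset.range L, e (j * L + i) • w (j * L + i)) := by
  intro a n m hnm
  have key : ∀ n, ∑ j ∈ Finset.range n, a j • ∑ i ∈ Finset.range L, e (j * L + i) • w (j * L + i)
      = ∑ i ∈ Finset.range (n * L), (a (i / L) * e i) • w i := by
    intro n
    rw [sum_range_block]
    apply Finset.sum_congr rfl
    intro j _
    rw [Finset.smul_sum]
    apply Finset.sum_congr rfl
    intro i hi
    rw [Finset.mem_range] at hi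
    have : (j * L + i) / L = j := by
      rw [Nat.add_comm, Nat.add_mul_div_right _ _ hL, Nat.div_eq_of_lt hi, Nat.zero_add]
    rw [this, smul_smul]
  show ‖∑ j ∈ Finset.range n, a j • ∑ i ∈ Finset.range L, e (j * L + i) • w (j * L + i)‖
    ≤ 2 * ‖∑ j ∈ Finset.range m, a j • ∑ i ∈ Finset.range L, e (j * L + i) • w (j * L + i)‖
  rw [key n, key m]
  exact hw _ _ _ (Nat.mul_le_mul_right L hnm)

theorem lemB {X : Type*} [NormedAddCommGroup X] [NormedSpace ℝ X] (N : ℕ) (hN0 : 0 < N)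
    (hN : ∀ x : ℕ → X, Bas x → (∀ i, 1 ≤ ‖x i‖) →
      ∃ ε : ℕ → Bool, 2 ≤ ‖∑ i ∈ Finset.range N, sg (ε i) • x i‖) (k : ℕ) :
    ∀ w : ℕ → X, Bas w → (∀ i, 1 ≤ ‖w i‖) →
      ∃ ε : ℕ → Bool, (2 : ℝ) ^ k ≤ ‖∑ i ∈ Finset.range (N ^ k), sg (ε i) • w i‖ := by
  induction k with
  | zero =>
    intro w _ h1
    refine ⟨fun _ => true, ?_⟩
    rw [pow_zero, pow_zero, Finset.sum_range_one, sg_true, one_smul]
    exact h1 0
  | succ k ih =>
    intro w hw h1
    set L := N ^ k with hLdef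
    have hL : 0 < L := Nat.pow_pos hN0
    have h2 : ∀ j : ℕ, ∃ ε : ℕ → Bool,
        (2 : ℝ) ^ k ≤ ‖∑ i ∈ Finset.range L, sg (ε i) • w (j * L + i)‖ := by
      intro j
      exact ih (fun i => w (j * L + i))
        (hw.subseq (fun i => j * L + i) (fun a b hab => Nat.add_lt_add_left hab _))
        (fun i => h1 _)
    choose ε hε using h2
    let e : ℕ → Bool := fun n => ε (n / L) (n % L)
    have hdiv : ∀ j i, i < L → (j * L + i) / L = j := by
      intro j i hi
      rw [Nat.add_comm, Nat.add_mul_div_right _ _ hL, Nat.div_eq_of_lt hi, Nat.zero_add]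
    have he : ∀ j i, i < L → e (j * L + i) = ε j i := by
      intro j i hi
      show ε ((j * L + i) / L) ((j * L + i) % L) = ε j i
      rw [hdiv j i hi, Nat.add_comm, Nat.add_mul_mod_self_right, Nat.mod_eq_of_lt hi]
    have h2k : (0 : ℝ) < 2 ^ k := by positivity
    have hx := hw.block L hL (fun n => ((2 : ℝ) ^ k)⁻¹ * sg (e n))
    have hxe : ∀ j, ∑ i ∈ Finset.range L, (((2 : ℝ) ^ k)⁻¹ * sg (e (j * L + i))) • w (j * L + i)
        = ((2 : ℝ) ^ k)⁻¹ • ∑ i ∈ Finset.range L, sg (e (j * L + i)) • w (j * L + i) := by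
      intro j
      rw [Finset.smul_sum]
      apply Finset.sum_congr rfl
      intro i _
      rw [smul_smul]
    have hx1 : ∀ j, 1 ≤ ‖∑ i ∈ Finset.range L,
        (((2 : ℝ) ^ k)⁻¹ * sg (e (j * L + i))) • w (j * L + i)‖ := by
      intro j
      rw [hxe j, norm_smul, norm_inv, Real.norm_eq_abs, abs_of_pos h2k]
      have h3 : ∑ i ∈ Finset.range L, sg (e (j * L + i)) • w (j * L + i)
          = ∑ i ∈ Finset.range L, sg (ε j i) • w (j * L + i) := by
        apply Finset.sum_congr rfl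
        intro i hi
        rw [he j i (Finset.mem_range.1 hi)]
      rw [h3]
      have h4 := mul_le_mul_of_nonneg_left (hε j) (inv_nonneg.2 h2k.le)
      rwa [inv_mul_cancel₀ h2k.ne'] at h4
    obtain ⟨η, hη⟩ := hN _ hx hx1
    refine ⟨fun n => (η (n / L) == e n), ?_⟩
    have hfin : ∑ n ∈ Finset.range (N ^ (k + 1)), sg (η (n / L) == e n) • w n
        = (2 : ℝ) ^ k • ∑ j ∈ Finset.range N, sg (η j) • ∑ i ∈ Finset.range L,
          (((2 : ℝ) ^ k)⁻¹ * sg (e (j * L + i))) • w (j * L + i) := by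
      have : N ^ (k + 1) = N * L := by rw [pow_succ, mul_comm]
      rw [this, sum_range_block, Finset.smul_sum]
      apply Finset.sum_congr rfl
      intro j _
      rw [hxe j, smul_comm (sg (η j)), smul_smul, mul_inv_cancel₀ h2k.ne', one_smul,
        Finset.smul_sum]
      apply Finset.sum_congr rfl
      intro i hi
      rw [hdiv j i (Finset.mem_range.1 hi), sg_beq, smul_smul]
    rw [hfin, norm_smul, Real.norm_eq_abs, abs_of_pos h2k, pow_succ]
    exact mul_le_mul_of_nonneg_left hη h2k.le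

end Pool.Helper570.Hyp
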