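import Mathlib

set_option autoImplicit false

namespace Pool.Helper570.Hyp

open Filter Topology

/-- choosing signs so that a quadratic form is at least its trace -/
theorem sign_lemma (c : ℕ → ℕ → ℝ) (F : Finset ℕ) :
    ∃ ε : ℕ → ℝ, (∀ n, |ε n| = 1) ∧
      ∑ n ∈ F, c n n ≤ ∑ n ∈ F, ∑ m ∈ F, ε n * ε m * c n m := by
  classical
  induction F using Finset.induction_on with
  | empty => exact ⟨fun _ => 1, by simp, by simp⟩
  | insert k F hk ih =>
    obtain ⟨ε, h1, h2⟩ := ih
    obtain ⟨s, hs1, hs2⟩ : ∃ s : ℝ, |s| = 1 ∧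
        0 ≤ s * (∑ m ∈ F, ε m * (c k m + c m k)) := by
      rcases le_total 0 (∑ m ∈ F, ε m * (c k m + c m k)) with h | h
      · exact ⟨1, by simp, by simpa using h⟩
      · exact ⟨-1, by simp, by simpa using h⟩
    have hne : ∀ n ∈ F, n ≠ k := fun n hn h => hk (h ▸ hn)
    refine ⟨Function.update ε k s, ?_, ?_⟩
    · intro n
      by_cases hn : n = k
      · subst hn; rw [Function.update_self]; exact hs1
      · rw [Function.update_of_ne hn]; exact h1 n
    · have hu : ∀ n ∈ F, Function.update ε k s n = ε n := fun n hn =>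
        Function.update_of_ne (hne n hn) _ _
      rw [Finset.sum_insert hk, Finset.sum_insert hk, Finset.sum_insert hk]
      rw [Function.update_self]
      have e1 : ∑ m ∈ F, s * Function.update ε k s m * c k m = s * ∑ m ∈ F, ε m * c k m := by
        rw [Finset.mul_sum]
        apply Finset.sum_congr rfl
        intro m hm
        rw [hu m hm]; ring
      have e2 : ∑ n ∈ F, ∑ m ∈ insert k F, Function.update ε k s n * Function.update ε k s m * c n m
          = s * (∑ n ∈ F, ε n * c n k) + ∑ n ∈ F, ∑ m ∈ F, ε n * ε m * c n m := by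
        rw [Finset.mul_sum, ← Finset.sum_add_distrib]
        apply Finset.sum_congr rfl
        intro n hn
        rw [Finset.sum_insert hk, Function.update_self, hu n hn]
        congr 1
        · ring
        · apply Finset.sum_congr rfl
          intro m hm
          rw [hu m hm]
      rw [e1, e2]
      have hss : s * s = 1 := by
        have := sq_abs s
        rw [hs1] at this
        nlinarith
      have e3 : s * (∑ m ∈ F, ε m * (c k m + c m k))
          = s * ∑ m ∈ F, ε m * c k m + s * ∑ n ∈ F, ε n * c n k := by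
        rw [← mul_add, ← Finset.sum_add_distrib]
        congr 1
        apply Finset.sum_congr rfl
        intro m _
        ring
      rw [hss, one_mul]
      linarith

/-- extraction of the diagonal of a multilinear form -/
theorem diag {X : Type*} [NormedAddCommGroup X] [NormedSpace ℝ X] (F : Finset ℕ) (u : ℕ → X)
    (r : ℝ) (hr : 0 ≤ r)
    (h : ∀ η : ℕ → ℝ, (∀ n, |η n| = 1) → ‖∑ n ∈ F, η n • u n‖ ≤ r) (q : ℕ) :
    ∀ (B : ContinuousMultilinearMap ℝ (fun _ : Fin (q + 1) => X) ℝ) (η : ℕ → ℝ),
      (∀ n, |η n| = 1) → ∑ n ∈ F, η n * B (fun _ => u n) ≤ ‖B‖ * r ^ (q + 1) := by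
  classical
  have hcons : ∀ (q : ℕ) (B : ContinuousMultilinearMap ℝ (fun _ : Fin (q + 1) => X) ℝ) (y z : X),
      B.curryLeft y (fun _ => z) = B (Fin.cons y (fun _ => z)) := by
    intro q B y z
    rfl
  have hconst : ∀ (q : ℕ) (z : X), (Fin.cons z (fun _ : Fin q => z) : Fin (q + 1) → X)
      = fun _ => z := by
    intro q z
    funext i
    refine Fin.cases ?_ (fun j => ?_) i
    · rfl
    · rfl
  induction q with
  | zero =>
    intro B η hη
    have e : ∑ n ∈ F, η n * B (fun _ => u n)
        = B.curryLeft (∑ n ∈ F, η n • u n) (fun _ => 0) := by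
      rw [map_sum]
      rw [ContinuousMultilinearMap.sum_apply]
      apply Finset.sum_congr rfl
      intro n _
      rw [map_smul, ContinuousMultilinearMap.smul_apply, smul_eq_mul]
      congr 1
      have : (fun _ : Fin 0 => (0 : X)) = fun _ => u n := by
        funext i; exact i.elim0
      rw [this, hcons, hconst]
    have hpow : r ^ (0 + 1) = r := by ring
    rw [e, hpow]
    have h1 := (B.curryLeft (∑ n ∈ F, η n • u n)).le_opNorm (fun _ => 0)
    rw [Finset.univ_eq_empty, Finset.prod_empty, mul_one, Real.norm_eq_abs] at h1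
    refine (le_abs_self _).trans (h1.trans ?_)
    refine (B.curryLeft.le_opNorm _).trans ?_
    rw [ContinuousMultilinearMap.curryLeft_norm]
    exact mul_le_mul_of_nonneg_left (h η hη) (norm_nonneg _)
  | succ q ih =>
    intro B η hη
    obtain ⟨ε, hε1, hε2⟩ := sign_lemma (fun n m => η n * B.curryLeft (u m) (fun _ => u n)) F
    have e1 : ∑ n ∈ F, η n * B (fun _ => u n)
        = ∑ n ∈ F, η n * B.curryLeft (u n) (fun _ => u n) := by
      apply Finset.sum_congr rfl
      intro n _
      rw [hcons, hconst]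
    rw [e1]
    refine hε2.trans ?_
    have e2 : ∑ n ∈ F, ∑ m ∈ F, ε n * ε m * (η n * B.curryLeft (u m) (fun _ => u n))
        = ∑ n ∈ F, (ε n * η n) * (B.curryLeft (∑ m ∈ F, ε m • u m)) (fun _ => u n) := by
      apply Finset.sum_congr rfl
      intro n _
      rw [map_sum, ContinuousMultilinearMap.sum_apply, Finset.mul_sum]
      apply Finset.sum_congr rfl
      intro m _
      rw [map_smul, ContinuousMultilinearMap.smul_apply, smul_eq_mul]
      ring
    rw [e2]
    have h1 := ih (B.curryLeft (∑ m ∈ F, ε m • u m)) (fun n => ε n * η n) (by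
      intro n
      rw [abs_mul, hε1, hη, one_mul])
    refine h1.trans ?_
    have h2 : ‖B.curryLeft (∑ m ∈ F, ε m • u m)‖ ≤ ‖B‖ * r := by
      refine (B.curryLeft.le_opNorm _).trans ?_
      rw [ContinuousMultilinearMap.curryLeft_norm]
      exact mul_le_mul_of_nonneg_left (h ε hε1) (norm_nonneg _)
    calc ‖B.curryLeft (∑ m ∈ F, ε m • u m)‖ * r ^ (q + 1) ≤ (‖B‖ * r) * r ^ (q + 1) :=
          mul_le_mul_of_nonneg_right h2 (by positivity)
      _ = ‖B‖ * r ^ (q + 1 + 1) := by ring

end Pool.Helper570.Hyp
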