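import Pool.Agent.Helper570.Hyp.Final

set_option autoImplicit false

namespace Pool.Helper570.Hyp

open Filter Topology NormedSpace

/-- approximating by vectors in the common kernel of finitely many functionals -/
theorem near_ker {X : Type*} [NormedAddCommGroup X] [NormedSpace ℝ X]
    (G : Finset (X →L[ℝ] ℝ)) : ∃ C : ℝ, 0 ≤ C ∧ ∀ x : X, ∃ y : X, (∀ g ∈ G, g y = 0) ∧
      ‖x - y‖ ≤ C * ∑ g ∈ G, |g x| := by
  classical
  induction G using Finset.induction_on with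
  | empty => exact ⟨0, le_rfl, fun x => ⟨x, by simp, by simp⟩⟩
  | insert g G hg ih =>
    obtain ⟨C, hC, h⟩ := ih
    by_cases hz : ∃ z : X, (∀ f ∈ G, f z = 0) ∧ g z ≠ 0
    · obtain ⟨z, hz1, hz2⟩ := hz
      refine ⟨C + (1 + ‖g‖ * C) * (|g z|⁻¹ * ‖z‖), by positivity, fun x => ?_⟩
      obtain ⟨y, hy1, hy2⟩ := h x
      refine ⟨y - ((g y) * (g z)⁻¹) • z, ?_, ?_⟩
      · intro f hf
        rw [Finset.mem_insert] at hf
        rcases hf with rfl | hf
        · rw [map_sub, map_smul, smul_eq_mul]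
          field_simp
          ring
        · rw [map_sub, map_smul, hy1 f hf, hz1 f hf]
          simp
      · have hs : 0 ≤ ∑ f ∈ G, |f x| := Finset.sum_nonneg fun _ _ => abs_nonneg _
        rw [Finset.sum_insert hg]
        set S := ∑ f ∈ G, |f x| with hS
        have h3 : |g y| ≤ |g x| + ‖g‖ * (C * S) := by
          have h4 : g y = g x - g (x - y) := by rw [map_sub]; ring
          rw [h4]
          refine (abs_sub _ _).trans ?_
          apply add_le_add le_rfl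
          have h5 := g.le_opNorm (x - y)
          rw [Real.norm_eq_abs] at h5
          exact h5.trans (mul_le_mul_of_nonneg_left hy2 (norm_nonneg _))
        have h6 : ‖x - (y - ((g y) * (g z)⁻¹) • z)‖ ≤ ‖x - y‖ + |g y| * (|g z|⁻¹ * ‖z‖) := by
          have : x - (y - ((g y) * (g z)⁻¹) • z) = (x - y) + ((g y) * (g z)⁻¹) • z := by abel
          rw [this]
          refine (norm_add_le _ _).trans ?_
          rw [norm_smul, Real.norm_eq_abs, abs_mul, abs_inv, mul_assoc]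
        have hnn : 0 ≤ |g z|⁻¹ * ‖z‖ := by positivity
        have h7 : |g y| * (|g z|⁻¹ * ‖z‖) ≤ (|g x| + ‖g‖ * (C * S)) * (|g z|⁻¹ * ‖z‖) :=
          mul_le_mul_of_nonneg_right h3 hnn
        have h8 : 0 ≤ |g x| := abs_nonneg _
        have h9 : 0 ≤ C * |g x| := by positivity
        have h10 : 0 ≤ ‖g‖ * C * |g x| * (|g z|⁻¹ * ‖z‖) := by positivity
        have h11 : 0 ≤ S * (|g z|⁻¹ * ‖z‖) := by positivity
        calc ‖x - (y - ((g y) * (g z)⁻¹) • z)‖ ≤ ‖x - y‖ + |g y| * (|g z|⁻¹ * ‖z‖) := h6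
          _ ≤ C * S + (|g x| + ‖g‖ * (C * S)) * (|g z|⁻¹ * ‖z‖) := add_le_add hy2 h7
          _ ≤ (C + (1 + ‖g‖ * C) * (|g z|⁻¹ * ‖z‖)) * (|g x| + S) := by nlinarith
    · push Not at hz
      refine ⟨C, hC, fun x => ?_⟩
      obtain ⟨y, hy1, hy2⟩ := h x
      refine ⟨y, ?_, ?_⟩
      · intro f hf
        rw [Finset.mem_insert] at hf
        rcases hf with rfl | hf
        · exact hz y hy1
        · exact hy1 f hf
      · rw [Finset.sum_insert hg]
        have : 0 ≤ C * |g x| := by positivity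
        linarith

/-- approximating functionals by functionals vanishing on a finite set -/
theorem near_ann {X : Type*} [NormedAddCommGroup X] [NormedSpace ℝ X]
    (W : Finset X) : ∃ C : ℝ, 0 ≤ C ∧ ∀ f : X →L[ℝ] ℝ, ∃ f' : X →L[ℝ] ℝ, (∀ w ∈ W, f' w = 0) ∧
      ‖f - f'‖ ≤ C * ∑ w ∈ W, |f w| := by
  classical
  obtain ⟨C, hC, h⟩ := near_ker (X := X →L[ℝ] ℝ)
    (W.image (fun w => (ContinuousLinearMap.apply ℝ ℝ w : (X →L[ℝ] ℝ) →L[ℝ] ℝ)))
  refine ⟨C, hC, fun f => ?_⟩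
  obtain ⟨f', h1, h2⟩ := h f
  refine ⟨f', ?_, ?_⟩
  · intro w hw
    exact h1 _ (Finset.mem_image_of_mem _ hw)
  · refine h2.trans (mul_le_mul_of_nonneg_left ?_ hC)
    exact Finset.sum_image_le_of_nonneg (fun _ _ => abs_nonneg _)

/-- passing to an exactly biorthogonal system by small perturbations -/
theorem exactify {X : Type*} [NormedAddCommGroup X] [NormedSpace ℝ X]
    (u : ℕ → X) (d : ℕ → X →L[ℝ] ℝ) (V D δ : ℝ) (hδ : 0 < δ)
    (hV : ∀ k, ‖u k‖ ≤ V) (hD : ∀ k, ‖d k‖ ≤ D)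
    (hu : ∀ f : X →L[ℝ] ℝ, Tendsto (fun k => f (u k)) atTop (𝓝 0))
    (hd : ∀ x, Tendsto (fun k => d k x) atTop (𝓝 0)) (hdu : ∀ k, δ ≤ d k (u k)) :
    ∃ (w : ℕ → X) (γ : ℕ → X →L[ℝ] ℝ) (κ : ℕ → ℕ) (c : ℕ → ℝ), StrictMono κ ∧
      (∀ n, γ n (w n) = 1) ∧ (∀ n m, n ≠ m → γ n (w m) = 0) ∧
      (∀ n, ‖w n - u (κ n)‖ ≤ (1 / 2 : ℝ) ^ n) ∧ (∀ n, |c n| ≤ 2 / δ) ∧
      (∀ n, ‖γ n - c n • d (κ n)‖ ≤ (1 / 2 : ℝ) ^ n) := by
  classical
  have hV0 : 0 ≤ V := (norm_nonneg _).trans (hV 0)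
  have hD0 : 0 ≤ D := (norm_nonneg _).trans (hD 0)
  obtain ⟨q, hq1, hq2⟩ := exists_seq_of_forall_finset_exists
    (fun q : (X × (X →L[ℝ] ℝ)) × (ℕ × ℕ) => q.1.2 q.1.1 = 1 ∧
      ‖q.1.1 - u q.2.1‖ ≤ (1 / 2 : ℝ) ^ q.2.2 ∧
      ∃ c : ℝ, |c| ≤ 2 / δ ∧ ‖q.1.2 - c • d q.2.1‖ ≤ (1 / 2 : ℝ) ^ q.2.2)
    (fun q q' : (X × (X →L[ℝ] ℝ)) × (ℕ × ℕ) => q'.1.2 q.1.1 = 0 ∧ q.1.2 q'.1.1 = 0 ∧
      q.2.1 < q'.2.1 ∧ q.2.2 < q'.2.2) (by
      intro s _
      obtain ⟨j, hj⟩ : ∃ j, ∀ x ∈ s, x.2.2 < j := by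
        refine ⟨s.sup (fun x => x.2.2) + 1, fun x hx => ?_⟩
        exact Nat.lt_succ_of_le (Finset.le_sup (f := fun x : (X × (X →L[ℝ] ℝ)) × (ℕ × ℕ) => x.2.2) hx)
      obtain ⟨i, hi⟩ : ∃ i, ∀ x ∈ s, x.2.1 < i := by
        refine ⟨s.sup (fun x => x.2.1) + 1, fun x hx => ?_⟩
        exact Nat.lt_succ_of_le (Finset.le_sup (f := fun x : (X × (X →L[ℝ] ℝ)) × (ℕ × ℕ) => x.2.1) hx)
      obtain ⟨C1, hC1, h1⟩ := near_ker (s.image (fun x => x.1.2))
      obtain ⟨C2, hC2, h2⟩ := near_ann (s.image (fun x => x.1.1))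
      have hp : (0 : ℝ) < (1 / 2 : ℝ) ^ j := by positivity
      obtain ⟨ε, hε0, hε1, hε2, hε3, hε4⟩ : ∃ ε : ℝ, 0 < ε ∧ ε ≤ (1 / 2 : ℝ) ^ j ∧
          2 / δ * ε ≤ (1 / 2 : ℝ) ^ j ∧ ε ≤ 1 ∧ ε * (D + V + 1) ≤ δ / 2 := by
        refine ⟨min (min ((1 / 2 : ℝ) ^ j) (δ / 2 * (1 / 2 : ℝ) ^ j))
          (min 1 (δ / 2 / (D + V + 1))), ?_, ?_, ?_, ?_, ?_⟩
        · exact lt_min (lt_min hp (by positivity)) (lt_min one_pos (by positivity))
        · exact (min_le_left _ _).trans (min_le_left _ _)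
        · have : min (min ((1 / 2 : ℝ) ^ j) (δ / 2 * (1 / 2 : ℝ) ^ j))
              (min 1 (δ / 2 / (D + V + 1))) ≤ δ / 2 * (1 / 2 : ℝ) ^ j :=
            (min_le_left _ _).trans (min_le_right _ _)
          calc 2 / δ * _ ≤ 2 / δ * (δ / 2 * (1 / 2 : ℝ) ^ j) :=
                mul_le_mul_of_nonneg_left this (by positivity)
            _ = (1 / 2 : ℝ) ^ j := by field_simp
        · exact (min_le_right _ _).trans (min_le_left _ _)
        · have : min (min ((1 / 2 : ℝ) ^ j) (δ / 2 * (1 / 2 : ℝ) ^ j))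
              (min 1 (δ / 2 / (D + V + 1))) ≤ δ / 2 / (D + V + 1) :=
            (min_le_right _ _).trans (min_le_right _ _)
          calc _ ≤ δ / 2 / (D + V + 1) * (D + V + 1) :=
                mul_le_mul_of_nonneg_right this (by positivity)
            _ = δ / 2 := by field_simp
      have t1 : Tendsto (fun k => C1 * ∑ g ∈ s.image (fun x => x.1.2), |g (u k)|) atTop
          (𝓝 (C1 * ∑ g ∈ s.image (fun x => x.1.2), |(0 : ℝ)|)) := by
        apply Tendsto.const_mul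
        apply tendsto_finsetSum
        intro g _
        exact (hu g).abs
      have t2 : Tendsto (fun k => C2 * ∑ g ∈ s.image (fun x => x.1.1), |d k g|) atTop
          (𝓝 (C2 * ∑ g ∈ s.image (fun x => x.1.1), |(0 : ℝ)|)) := by
        apply Tendsto.const_mul
        apply tendsto_finsetSum
        intro g _
        exact (hd g).abs
      simp only [abs_zero, Finset.sum_const_zero, mul_zero] at t1 t2
      have e1 := t1.eventually (gt_mem_nhds hε0)
      have e2 := t2.eventually (gt_mem_nhds hε0)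
      obtain ⟨k, ⟨hk1, hk2⟩, hk3⟩ := ((e1.and e2).and (eventually_ge_atTop i)).exists
      obtain ⟨w', hw1, hw2⟩ := h1 (u k)
      obtain ⟨d', hd1, hd2⟩ := h2 (d k)
      have hw3 : ‖u k - w'‖ ≤ ε := hw2.trans hk1.le
      have hd3 : ‖d k - d'‖ ≤ ε := hd2.trans hk2.le
      have hw4 : ‖w'‖ ≤ V + 1 := by
        have a1 : ‖w'‖ ≤ ‖u k‖ + ‖u k - w'‖ := by
          have := norm_sub_le (u k) (u k - w')
          rwa [sub_sub_cancel] at this
        linarith [hV k]
      have hlow : δ / 2 ≤ d' w' := by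
        have a1 : d' w' = d k (u k) - d k (u k - w') - (d k - d') w' := by
          have : (d k - d') w' = d k w' - d' w' := rfl
          rw [this, map_sub]; ring
        have a2 : d k (u k - w') ≤ D * ε := by
          have := (d k).le_opNorm (u k - w')
          rw [Real.norm_eq_abs] at this
          exact (le_abs_self _).trans (this.trans
            (mul_le_mul (hD k) hw3 (norm_nonneg _) hD0))
        have a3 : (d k - d') w' ≤ ε * (V + 1) := by
          have := (d k - d').le_opNorm w'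
          rw [Real.norm_eq_abs] at this
          exact (le_abs_self _).trans (this.trans
            (mul_le_mul hd3 hw4 (norm_nonneg _) hε0.le))
        have a4 := hdu k
        rw [a1]
        nlinarith
      have hpos : 0 < d' w' := by linarith
      refine ⟨((w', (d' w')⁻¹ • d'), (k, j)), ⟨?_, ?_, (d' w')⁻¹, ?_, ?_⟩, ?_⟩
      · show (d' w')⁻¹ * d' w' = 1
        exact inv_mul_cancel₀ hpos.ne'
      · show ‖w' - u k‖ ≤ (1 / 2 : ℝ) ^ j
        rw [norm_sub_rev]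
        exact hw3.trans hε1
      · rw [abs_of_pos (inv_pos.2 hpos), show 2 / δ = (δ / 2)⁻¹ by field_simp]
        exact inv_anti₀ (by positivity) hlow
      · have e5 : (d' w')⁻¹ • d' - (d' w')⁻¹ • d k = (d' w')⁻¹ • (d' - d k) :=
          (smul_sub _ _ _).symm
        show ‖(d' w')⁻¹ • d' - (d' w')⁻¹ • d k‖ ≤ (1 / 2 : ℝ) ^ j
        rw [e5, norm_smul, Real.norm_eq_abs, abs_of_pos (inv_pos.2 hpos), norm_sub_rev]
        have : (d' w')⁻¹ ≤ 2 / δ := by
          rw [show 2 / δ = (δ / 2)⁻¹ by field_simp]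
          exact inv_anti₀ (by positivity) hlow
        exact (mul_le_mul this hd3 (norm_nonneg _) (by positivity)).trans hε2
      · intro x hx
        refine ⟨?_, ?_, ?_, ?_⟩
        · show (d' w')⁻¹ * d' x.1.1 = 0
          rw [hd1 x.1.1 (Finset.mem_image_of_mem _ hx), mul_zero]
        · exact hw1 x.1.2 (Finset.mem_image_of_mem _ hx)
        · exact lt_of_lt_of_le (hi x hx) hk3
        · exact hj x hx)
  have hm2 : StrictMono fun n => (q n).2.2 := by
    intro m n hmn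
    exact (hq2 m n hmn).2.2.2
  have hjn : ∀ n, (1 / 2 : ℝ) ^ (q n).2.2 ≤ (1 / 2 : ℝ) ^ n := by
    intro n
    exact pow_le_pow_of_le_one (by norm_num) (by norm_num) (hm2.id_le n)
  choose c hc1 hc2 using fun n => (hq1 n).2.2
  refine ⟨fun n => (q n).1.1, fun n => (q n).1.2, fun n => (q n).2.1, c, ?_, ?_, ?_, ?_, ?_, ?_⟩
  · intro m n hmn
    exact (hq2 m n hmn).2.2.1
  · exact fun n => (hq1 n).1
  · intro n m hnm
    rcases lt_or_gt_of_ne hnm with h | h
    · exact (hq2 n m h).2.1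
    · exact (hq2 m n h).1
  · exact fun n => (hq1 n).2.1.trans (hjn n)
  · exact hc1
  · exact fun n => (hc2 n).trans (hjn n)

/-- the isomorphism from an almost biorthogonal system -/
theorem iso_of_almost {X : Type*} [NormedAddCommGroup X] [NormedSpace ℝ X] [CompleteSpace X]
    (u : ℕ → X) (d : ℕ → X →L[ℝ] ℝ) (V D δ : ℝ) (hδ : 0 < δ)
    (hV : ∀ k, ‖u k‖ ≤ V) (hD : ∀ k, ‖d k‖ ≤ D)
    (hu : ∀ f : X →L[ℝ] ℝ, Tendsto (fun k => f (u k)) atTop (𝓝 0))
    (hd : ∀ x, Tendsto (fun k => d k x) atTop (𝓝 0)) (hdu : ∀ k, δ ≤ d k (u k))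
    (H : ∀ (κ κ' : ℕ → ℕ) (c : ℕ → ℝ) (C : ℝ), StrictMono κ → StrictMono κ' →
      (∀ n, |c n| ≤ C) → ∀ x, Summable fun n => (c n * d (κ n) x) • u (κ' n))
    (φ : X →L[ℝ] ℝ) (hφ : φ ≠ 0) :
    Nonempty (X ≃L[ℝ] ↥(LinearMap.ker φ.toLinearMap)) := by
  obtain ⟨w, γ, κ, c, hκ, h1, h2, h3, h4, h5⟩ := exactify u d V D δ hδ hV hD hu hd hdu
  have hV0 : 0 ≤ V := (norm_nonneg _).trans (hV 0)
  have hD0 : 0 ≤ D := (norm_nonneg _).trans (hD 0)
  have hgeo : Summable fun n : ℕ => (1 / 2 : ℝ) ^ n :=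
    summable_geometric_of_lt_one (by norm_num) (by norm_num)
  have hγx : ∀ n x, |γ n x| ≤ (2 / δ * D + 1) * ‖x‖ := by
    intro n x
    have a1 : ‖γ n‖ ≤ 2 / δ * D + 1 := by
      have a2 : ‖γ n‖ ≤ ‖γ n - c n • d (κ n)‖ + ‖c n • d (κ n)‖ := by
        have := norm_add_le (γ n - c n • d (κ n)) (c n • d (κ n))
        rwa [sub_add_cancel] at this
      have a3 : ‖c n • d (κ n)‖ ≤ 2 / δ * D := by
        rw [norm_smul, Real.norm_eq_abs]
        exact mul_le_mul (h4 n) (hD _) (norm_nonneg _) (by positivity)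
      have a4 : (1 / 2 : ℝ) ^ n ≤ 1 := pow_le_one₀ (by norm_num) (by norm_num)
      linarith [h5 n]
    have := (γ n).le_opNorm x
    rw [Real.norm_eq_abs] at this
    exact this.trans (mul_le_mul_of_nonneg_right a1 (norm_nonneg _))
  -- general summability
  have gen : ∀ (a b : ℕ → ℕ), StrictMono a → StrictMono b → ∀ x,
      Summable fun n => γ (a n) x • w (b n) := by
    intro a b ha hb x
    have e : (fun n => γ (a n) x • w (b n)) = fun n =>
        ((c (a n) * d (κ (a n)) x) • u (κ (b n)) +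
        ((γ (a n) - c (a n) • d (κ (a n))) x) • u (κ (b n))) +
        (γ (a n) x) • (w (b n) - u (κ (b n))) := by
      funext n
      have : (γ (a n) - c (a n) • d (κ (a n))) x = γ (a n) x - c (a n) * d (κ (a n)) x := rfl
      rw [this, sub_smul, smul_sub]
      abel
    rw [e]
    have s1 : Summable fun n => (c (a n) * d (κ (a n)) x) • u (κ (b n)) :=
      H (fun n => κ (a n)) (fun n => κ (b n)) (fun n => c (a n)) (2 / δ) (hκ.comp ha) (hκ.comp hb)
        (fun n => h4 _) x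
    have s2 : Summable fun n => ((γ (a n) - c (a n) • d (κ (a n))) x) • u (κ (b n)) := by
      apply Summable.of_norm_bounded (g := fun n => (1 / 2 : ℝ) ^ n * (‖x‖ * V))
        (hgeo.mul_right _)
      intro n
      rw [norm_smul, ← mul_assoc]
      apply mul_le_mul _ (hV _) (norm_nonneg _) (by positivity)
      refine ((γ (a n) - c (a n) • d (κ (a n))).le_opNorm x).trans ?_
      apply mul_le_mul_of_nonneg_right _ (norm_nonneg _)
      exact (h5 (a n)).trans (pow_le_pow_of_le_one (by norm_num) (by norm_num) (ha.id_le n))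
    have s3 : Summable fun n => (γ (a n) x) • (w (b n) - u (κ (b n))) := by
      apply Summable.of_norm_bounded (g := fun n => ((2 / δ * D + 1) * ‖x‖) * (1 / 2 : ℝ) ^ n)
        (hgeo.mul_left _)
      intro n
      rw [norm_smul, Real.norm_eq_abs]
      apply mul_le_mul (hγx _ _) _ (norm_nonneg _) (by positivity)
      exact (h3 (b n)).trans (pow_le_pow_of_le_one (by norm_num) (by norm_num) (hb.id_le n))
    exact (s1.add s2).add s3
  have hid : StrictMono fun n : ℕ => n := strictMono_id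
  have hsu : StrictMono fun n : ℕ => n + 1 := fun a b h => Nat.succ_lt_succ h
  exact iso_of_system w γ h1 h2 (gen _ _ hid hid) (gen _ _ hid hsu) (gen _ _ hsu hid) φ hφ

end Pool.Helper570.Hyp
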