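import Pool.Agent.Helper570.NCS.ReflSep

set_option autoImplicit false

namespace Pool.Helper570.Hyp

open Filter Topology NormedSpace Pool.Helper570.NCS

theorem separable_of_dual (E : Type*) [NormedAddCommGroup E] [NormedSpace ℝ E]
    [TopologicalSpace.SeparableSpace (StrongDual ℝ E)] : TopologicalSpace.SeparableSpace E := by
  classical
  have _ : Nonempty (StrongDual ℝ E) := ⟨0⟩
  let fd : ℕ → StrongDual ℝ E := TopologicalSpace.denseSeq (StrongDual ℝ E)
  have h1 : ∀ n, ∃ y : E, ‖y‖ ≤ 1 ∧ ‖fd n‖ / 2 ≤ fd n y := by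
    intro n
    by_cases h : fd n = 0
    · exact ⟨0, by simp, by simp [h]⟩
    · have hp : 0 < ‖fd n‖ := norm_pos_iff.2 h
      obtain ⟨y, hy1, hy2⟩ := exists_unit_almost (fd n) (‖fd n‖ / 2) (by positivity)
      exact ⟨y, hy1, by linarith⟩
  choose x hx1 hx2 using h1
  let W : Submodule ℝ E := Submodule.span ℝ (Set.range x)
  have hsep : TopologicalSpace.IsSeparable (W : Set E) :=
    ((Set.countable_range x).isSeparable).span
  have htop : closure (W : Set E) = Set.univ := by
    by_contra hne
    obtain ⟨z, hz⟩ := (Set.ne_univ_iff_exists_notMem _).1 hne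
    obtain ⟨φ, u, hφ1, hφ2⟩ := geometric_hahn_banach_closed_point W.convex.closure
      isClosed_closure hz
    have h0 : ∀ y ∈ W, φ y = 0 := by
      intro y hy
      by_contra hne
      have h1 := hφ1 _ (subset_closure (W.smul_mem ((u + 1) / φ y) hy))
      rw [map_smul, smul_eq_mul, div_mul_cancel₀ _ hne] at h1
      linarith
    have hu : 0 < u := by
      have h1 := hφ1 0 (subset_closure W.zero_mem)
      rwa [map_zero] at h1
    have hφ : φ ≠ 0 := by
      intro h
      rw [h] at hφ2
      have : (0 : StrongDual ℝ E) z = 0 := rfl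
      rw [this] at hφ2
      linarith
    have hp : 0 < ‖φ‖ := norm_pos_iff.2 hφ
    obtain ⟨n, hn⟩ := (TopologicalSpace.denseRange_denseSeq (StrongDual ℝ E)).exists_dist_lt φ
      (show 0 < ‖φ‖ / 4 by positivity)
    rw [dist_eq_norm] at hn
    have hn' : ‖φ - fd n‖ < ‖φ‖ / 4 := hn
    have h2 : (φ - fd n) (x n) = - fd n (x n) := by
      have : (φ - fd n) (x n) = φ (x n) - fd n (x n) := rfl
      rw [this, h0 _ (Submodule.subset_span ⟨n, rfl⟩), zero_sub]
    have h3 := (φ - fd n).le_opNorm (x n)
    rw [h2, norm_neg, Real.norm_eq_abs] at h3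
    have h4 : ‖φ - fd n‖ * ‖x n‖ ≤ ‖φ - fd n‖ * 1 :=
      mul_le_mul_of_nonneg_left (hx1 n) (norm_nonneg _)
    have h5 := le_abs_self (fd n (x n))
    have h6 := hx2 n
    have h7 : ‖φ‖ ≤ ‖φ - fd n‖ + ‖fd n‖ := by
      have := norm_add_le (φ - fd n) (fd n)
      rwa [sub_add_cancel] at this
    linarith
  have h2 := hsep.closure
  rw [htop] at h2
  exact TopologicalSpace.isSeparable_univ_iff.1 h2

theorem separable_dual_of_refl (X : Type*) [NormedAddCommGroup X] [NormedSpace ℝ X]
    [TopologicalSpace.SeparableSpace X]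
    (h : Function.Surjective (inclusionInDoubleDual ℝ X)) :
    TopologicalSpace.SeparableSpace (StrongDual ℝ X) := by
  have h1 : TopologicalSpace.SeparableSpace (StrongDual ℝ (StrongDual ℝ X)) :=
    h.denseRange.separableSpace (inclusionInDoubleDual ℝ X).continuous
  exact separable_of_dual (StrongDual ℝ X)

end Pool.Helper570.Hyp
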