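import Pool.Agent.Helper570.Hyp.Upper
import Pool.Agent.Helper570.Hyp.Cube
import Pool.Agent.Helper570.Hyp.Diag
import Pool.Agent.Helper570.Hyp.Exact
import Pool.Agent.Helper570.Hyp.SepDual
import Pool.Agent.Helper570.NCS.CaseB

set_option autoImplicit false

namespace Pool.Helper570.Hyp

open Filter Topology NormedSpace Metric Pool.Helper570.NCS

theorem nul_one {X : Type*} [NormedAddCommGroup X] [NormedSpace ℝ X] (v : ℕ → X)
    (hv : ∀ f : X →L[ℝ] ℝ, Tendsto (fun i => f (v i)) atTop (𝓝 0)) : Nul v 1 := by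
  intro A
  let d : X →L[ℝ] ℝ := (ContinuousMultilinearMap.apply ℝ (fun _ : Fin 0 => X) ℝ
    (fun i => i.elim0)).comp A.curryLeft
  have h : ∀ x, A (fun _ => x) = d x := by
    intro x
    have e : d x = A (Fin.cons x (fun i : Fin 0 => i.elim0)) := rfl
    rw [e]
    congr 1
    funext i
    refine Fin.cases ?_ (fun j => j.elim0) i
    rfl
  simp_rw [h]
  exact hv d

theorem sum_bound {X : Type*} [NormedAddCommGroup X] [NormedSpace ℝ X] (w : ℕ → X) (q : ℕ)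
    (c r : ℝ) (hc : 0 < c) (hr : 0 < r) (hU : Upp w (q + 2) c r)
    (B : ContinuousMultilinearMap ℝ (fun _ : Fin (q + 1) => X) ℝ) (F : Finset ℕ) :
    ∑ n ∈ F, |B (fun _ => w n)| ^ (q + 2) ≤ (‖B‖ * r ^ (q + 1)) ^ (q + 2) / c ^ (q + 1) := by
  classical
  set S : ℝ := ∑ n ∈ F, |B (fun _ => w n)| ^ (q + 2) with hS
  rcases le_or_gt S 0 with hS0 | hS0
  · exact hS0.trans (by positivity)
  set s : ℝ := (c / S) ^ (((q + 2 : ℕ) : ℝ)⁻¹) with hs
  have hs0 : 0 ≤ s := Real.rpow_nonneg (by positivity) _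
  have hsp : s ^ (q + 2) = c / S := by
    rw [hs]
    exact Real.rpow_inv_natCast_pow (by positivity) (by omega)
  set β : ℝ := ‖B‖ * r ^ (q + 1) with hβ
  have hβ0 : 0 ≤ β := by positivity
  set η : ℕ → ℝ := fun n => if 0 ≤ B (fun _ => w n) then 1 else -1 with hη
  have hη1 : ∀ n, |η n| = 1 := by
    intro n
    rw [hη]
    show |if 0 ≤ B (fun _ => w n) then (1 : ℝ) else -1| = 1
    split_ifs <;> norm_num
  have hη2 : ∀ n, η n * B (fun _ => w n) = |B (fun _ => w n)| := by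
    intro n
    show (if 0 ≤ B (fun _ => w n) then (1 : ℝ) else -1) * B (fun _ => w n) = _
    split_ifs with h
    · rw [one_mul, abs_of_nonneg h]
    · rw [neg_one_mul, abs_of_neg (not_le.1 h)]
  have h1 := diag F (fun n => (s * |B (fun _ => w n)|) • w n) r hr.le (by
    intro ε hε
    have e : ∑ n ∈ F, ε n • (s * |B (fun _ => w n)|) • w n
        = ∑ n ∈ F, (ε n * (s * |B (fun _ => w n)|)) • w n := by
      apply Finset.sum_congr rfl
      intro n _
      rw [smul_smul]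
    rw [e]
    apply hU
    have e2 : ∀ n, |ε n * (s * |B (fun _ => w n)|)| ^ (q + 2)
        = s ^ (q + 2) * |B (fun _ => w n)| ^ (q + 2) := by
      intro n
      rw [abs_mul, hε, one_mul, abs_mul, abs_abs, abs_of_nonneg hs0, mul_pow]
    simp_rw [e2]
    rw [← Finset.mul_sum, ← hS, hsp, div_mul_cancel₀ _ hS0.ne']) q B η hη1
  have h2 : ∀ n, η n * B (fun _ => (s * |B (fun _ => w n)|) • w n)
      = s ^ (q + 1) * |B (fun _ => w n)| ^ (q + 2) := by
    intro n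
    have e := B.map_smul_univ (fun _ => s * |B (fun _ => w n)|) (fun _ => w n)
    rw [Finset.prod_const, Finset.card_univ, Fintype.card_fin, smul_eq_mul] at e
    rw [e]
    calc η n * ((s * |B (fun _ => w n)|) ^ (q + 1) * B (fun _ => w n))
        = (s * |B (fun _ => w n)|) ^ (q + 1) * (η n * B (fun _ => w n)) := by ring
      _ = (s * |B (fun _ => w n)|) ^ (q + 1) * |B (fun _ => w n)| := by rw [hη2]
      _ = _ := by ring
  simp_rw [h2] at h1
  rw [← Finset.mul_sum, ← hS, ← hβ] at h1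
  have h3 : (s ^ (q + 1) * S) ^ (q + 2) ≤ β ^ (q + 2) :=
    pow_le_pow_left₀ (by positivity) h1 _
  have h4 : (s ^ (q + 1) * S) ^ (q + 2) = c ^ (q + 1) * S := by
    calc (s ^ (q + 1) * S) ^ (q + 2) = (s ^ (q + 2)) ^ (q + 1) * S ^ (q + 2) := by ring
      _ = (c / S) ^ (q + 1) * S ^ (q + 2) := by rw [hsp]
      _ = c ^ (q + 1) * S := by
          rw [div_pow]
          field_simp
          ring
  rw [h4] at h3
  rw [le_div_iff₀ (by positivity)]
  linarith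

/-- some power is not null along a normalized basic sequence -/
theorem exists_not_nul {X : Type*} [NormedAddCommGroup X] [NormedSpace ℝ X]
    (g : X → ℝ) (hg : ContDiff ℝ ((⊤ : ℕ∞) : WithTop ℕ∞) g) (hg1 : ∀ x, g x ≤ 1)
    (𝒦 : Set X) (h𝒦 : IsCompact 𝒦)
    (hpack : ∀ ρ : ℝ, 0 < ρ → ∃ (K : Finset X) (a b : ℝ), a < b ∧
      (∀ k ∈ K, k ∈ 𝒦) ∧ (∀ k ∈ K, g k ≤ a) ∧ ∀ h, ρ ≤ ‖h‖ → ∃ k ∈ K, b < g (k + h))
    (m : ℕ) (hm : ∀ R : ℕ → X, (∀ k, ‖R k‖ ≤ 2) →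
      ∃ η : ℕ → Bool, ‖∑ k ∈ Finset.range m, sg (η k) • R k‖ < m / 4)
    (v : ℕ → X) (hv : ∀ i, ‖v i‖ = 1) (hb : Bas v) :
    ∃ j, 1 ≤ j ∧ ¬ Nul v j := by
  classical
  by_contra hcon
  push Not at hcon
  set N : ℕ := 2 ^ m with hN
  have hN0 : 0 < N := by positivity
  obtain ⟨p, hp⟩ := exists_pow_lt_of_lt_one (show (0 : ℝ) < 1 / N by positivity)
    (show (3 / 4 : ℝ) < 1 by norm_num)
  have hp' : (N : ℝ) * (3 / 4 : ℝ) ^ (p + 1) ≤ 1 := by
    have h1 : (3 / 4 : ℝ) ^ (p + 1) ≤ (3 / 4 : ℝ) ^ p := by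
      rw [pow_succ]
      have : (0 : ℝ) < (3 / 4 : ℝ) ^ p := by positivity
      linarith
    calc (N : ℝ) * (3 / 4 : ℝ) ^ (p + 1) ≤ N * (1 / N) :=
          mul_le_mul_of_nonneg_left (h1.trans hp.le) (Nat.cast_nonneg _)
      _ = 1 := by field_simp
  obtain ⟨f, c, r, hf, hc, hr, hU⟩ := upper g hg hg1 𝒦 h𝒦 hpack p v (fun i => (hv i).le)
    (fun j hj _ => hcon j hj)
  have hB := hb.subseq f hf
  set t : ℝ := min 1 c with ht
  have ht0 : 0 < t := lt_min one_pos hc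
  have ht1 : t ≤ 1 := min_le_left _ _
  have htc : t ^ (p + 1) ≤ c := by
    calc t ^ (p + 1) = t ^ p * t := pow_succ _ _
      _ ≤ 1 * t := mul_le_mul_of_nonneg_right (pow_le_one₀ ht0.le ht1) ht0.le
      _ ≤ c := by rw [one_mul]; exact min_le_right _ _
  have key : ∀ k : ℕ, (3 / 2 : ℝ) ^ k * t ≤ r := by
    intro k
    obtain ⟨ε, hε⟩ := lemB N hN0 (fun x hx hx1 => lemA m hm x hx hx1) k (fun i => v (f i)) hB
      (fun i => (hv _).ge)
    have h1 : ∑ i ∈ Finset.range (N ^ k), |(3 / 4 : ℝ) ^ k * t * sg (ε i)| ^ (p + 1) ≤ c := by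
      have e : ∀ i, |(3 / 4 : ℝ) ^ k * t * sg (ε i)| ^ (p + 1)
          = ((3 / 4 : ℝ) ^ k * t) ^ (p + 1) := by
        intro i
        rw [abs_mul, sg_abs, mul_one, abs_of_nonneg (by positivity)]
      simp_rw [e]
      rw [Finset.sum_const, Finset.card_range, nsmul_eq_mul]
      push_cast
      calc (N : ℝ) ^ k * ((3 / 4 : ℝ) ^ k * t) ^ (p + 1)
          = ((N : ℝ) * (3 / 4 : ℝ) ^ (p + 1)) ^ k * t ^ (p + 1) := by
            rw [mul_pow, mul_pow, ← pow_mul, ← pow_mul, mul_comm k (p + 1)]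
            ring
        _ ≤ 1 * t ^ (p + 1) := mul_le_mul_of_nonneg_right
            (pow_le_one₀ (by positivity) hp') (by positivity)
        _ ≤ c := by rw [one_mul]; exact htc
    have h2 := hU (Finset.range (N ^ k)) (fun i => (3 / 4 : ℝ) ^ k * t * sg (ε i)) h1
    have h3 : ∑ i ∈ Finset.range (N ^ k), ((3 / 4 : ℝ) ^ k * t * sg (ε i)) • v (f i)
        = ((3 / 4 : ℝ) ^ k * t) • ∑ i ∈ Finset.range (N ^ k), sg (ε i) • v (f i) := by
      rw [Finset.smul_sum]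
      apply Finset.sum_congr rfl
      intro i _
      rw [smul_smul]
    have h2' : ‖∑ i ∈ Finset.range (N ^ k), ((3 / 4 : ℝ) ^ k * t * sg (ε i)) • v (f i)‖ ≤ r := h2
    rw [h3, norm_smul, Real.norm_eq_abs, abs_of_nonneg (by positivity)] at h2'
    have h4 : ((3 / 4 : ℝ) ^ k * t) * 2 ^ k ≤ r :=
      (mul_le_mul_of_nonneg_left hε (by positivity)).trans h2'
    calc (3 / 2 : ℝ) ^ k * t = ((3 / 4 : ℝ) ^ k * t) * 2 ^ k := by
          rw [show (3 / 2 : ℝ) = 3 / 4 * 2 by norm_num, mul_pow]; ring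
      _ ≤ r := h4
  obtain ⟨k, hk⟩ := pow_unbounded_of_one_lt (r / t) (show (1 : ℝ) < 3 / 2 by norm_num)
  have h5 := key k
  rw [div_lt_iff₀ ht0] at hk
  linarith

/-- the reflexive alternative -/
theorem iso_of_pack {X : Type*} [NormedAddCommGroup X] [NormedSpace ℝ X] [CompleteSpace X]
    [TopologicalSpace.SeparableSpace X] (hX : ¬ FiniteDimensional ℝ X)
    (g : X → ℝ) (hg : ContDiff ℝ ((⊤ : ℕ∞) : WithTop ℕ∞) g) (hg1 : ∀ x, g x ≤ 1)
    (𝒦 : Set X) (h𝒦 : IsCompact 𝒦)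
    (hpack : ∀ ρ : ℝ, 0 < ρ → ∃ (K : Finset X) (a b : ℝ), a < b ∧
      (∀ k ∈ K, k ∈ 𝒦) ∧ (∀ k ∈ K, g k ≤ a) ∧ ∀ h, ρ ≤ ‖h‖ → ∃ k ∈ K, b < g (k + h))
    (φ : X →L[ℝ] ℝ) (hφ : φ ≠ 0) :
    Nonempty (X ≃L[ℝ] ↥(LinearMap.ker φ.toLinearMap)) := by
  classical
  have h2top : (((2 : ℕ∞) : ℕ∞) : WithTop ℕ∞) ≤ ((⊤ : ℕ∞) : WithTop ℕ∞) :=
    WithTop.coe_le_coe.2 le_top
  obtain ⟨r₀, hr₀, M₀, hM₀, hctrl⟩ := compact_control g (hg.of_le h2top) 𝒦 h𝒦
  obtain ⟨K, a, b, hab, hK𝒦, hKa, hfar⟩ := hpack r₀ hr₀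
  obtain ⟨ψ, M', σ, B, hM', hσ, hσr, hB, h0, h1, h2⟩ := exists_psi g hg1
    r₀ M₀ hr₀ hM₀ K a b hab hKa (fun k hk => hctrl k (hK𝒦 k hk)) hfar
  have hrefl := refl_of_psi ψ r₀ M' σ B hr₀ hM' hσ hσr hB h0 h1 h2
  obtain ⟨m, -, hm⟩ := walk ψ r₀ M' σ hr₀ hM' hσ h0 h1 h2
  have _ : TopologicalSpace.SeparableSpace (X →L[ℝ] ℝ) := separable_dual_of_refl X hrefl
  obtain ⟨v, hv1, hv2, hv3⟩ := exists_basic hX
  have hex := exists_not_nul g hg hg1 𝒦 h𝒦 hpack m hm v hv1 hv2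
  have hj1 := (Nat.find_spec hex).1
  have hj2 := (Nat.find_spec hex).2
  have hjmin : ∀ j, 1 ≤ j → j < Nat.find hex → Nul v j := by
    intro j hj hlt
    by_contra hcon
    exact Nat.find_min hex hlt ⟨hj, hcon⟩
  obtain ⟨q, hq⟩ : ∃ q, Nat.find hex = q + 2 := by
    have h3 : Nat.find hex ≠ 1 := by
      intro h
      rw [h] at hj2
      exact hj2 (nul_one v hv3)
    exact ⟨Nat.find hex - 2, by omega⟩
  rw [hq] at hj2 hjmin
  -- the form
  obtain ⟨A, δ, hδ, hA⟩ : ∃ (A : ContinuousMultilinearMap ℝ (fun _ : Fin (q + 2) => X) ℝ) (δ : ℝ),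
      0 < δ ∧ ∃ᶠ i in atTop, δ ≤ A (fun _ => v i) := by
    unfold Nul at hj2
    push Not at hj2
    obtain ⟨A, hA⟩ := hj2
    rw [Metric.tendsto_atTop] at hA
    push Not at hA
    obtain ⟨δ, hδ, hA⟩ := hA
    have h3 : ∃ᶠ i in atTop, δ ≤ A (fun _ => v i) ∨ δ ≤ (-A) (fun _ => v i) := by
      rw [Filter.frequently_atTop]
      intro n
      obtain ⟨i, hi, hi2⟩ := hA n
      refine ⟨i, hi, ?_⟩
      rw [dist_zero_right, Real.norm_eq_abs] at hi2
      rcases le_abs.1 hi2 with h | h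
      · exact Or.inl h
      · exact Or.inr h
    rcases Filter.frequently_or_distrib.1 h3 with h | h
    · exact ⟨A, δ, hδ, h⟩
    · exact ⟨-A, δ, hδ, h⟩
  obtain ⟨θ, hθ, hθA⟩ := Filter.extraction_of_frequently_atTop hA
  obtain ⟨f, c, r, hf, hc, hr, hU⟩ := upper g hg hg1 𝒦 h𝒦 hpack (q + 1) (fun i => v (θ i))
    (fun i => (hv1 _).le) (fun j hj1' hj2' => by
      intro A'
      exact (hjmin j hj1' hj2' A').comp hθ.tendsto_atTop)
  set w : ℕ → X := fun k => v (θ (f k)) with hw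
  have hw1 : ∀ k, ‖w k‖ = 1 := fun k => hv1 _
  let d : ℕ → X →L[ℝ] ℝ := fun k => (ContinuousMultilinearMap.apply ℝ (fun _ : Fin (q + 1) => X) ℝ
    (fun _ => w k)).comp A.curryLeft
  have hd : ∀ k x, d k x = A.curryLeft x (fun _ => w k) := fun k x => rfl
  have hdb : ∀ k x, |d k x| ≤ ‖A‖ * ‖x‖ := by
    intro k x
    rw [hd]
    have h3 := (A.curryLeft x).le_opNorm (fun _ => w k)
    rw [Finset.prod_const, hw1, one_pow, mul_one, Real.norm_eq_abs] at h3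
    refine h3.trans ?_
    refine (A.curryLeft.le_opNorm x).trans ?_
    rw [ContinuousMultilinearMap.curryLeft_norm]
  have hsum : ∀ x, Summable fun n => |d n x| ^ (q + 2) := by
    intro x
    apply summable_of_sum_le (c := (‖A.curryLeft x‖ * r ^ (q + 1)) ^ (q + 2) / c ^ (q + 1))
    · intro n; positivity
    · intro F
      exact sum_bound w q c r hc hr hU (A.curryLeft x) F
  have hd0 : ∀ x, Tendsto (fun n => d n x) atTop (𝓝 0) := by
    intro x
    have h3 := (hsum x).tendsto_atTop_zero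
    rw [Metric.tendsto_atTop] at h3 ⊢
    intro ε hε
    obtain ⟨n, hn⟩ := h3 (ε ^ (q + 2)) (by positivity)
    refine ⟨n, fun i hi => ?_⟩
    have h4 := hn i hi
    rw [dist_zero_right, Real.norm_eq_abs, abs_of_nonneg (by positivity)] at h4
    rw [dist_zero_right, Real.norm_eq_abs]
    exact lt_of_pow_lt_pow_left₀ _ hε.le h4
  refine iso_of_almost w d 1 ‖A‖ δ hδ (fun k => (hw1 k).le) (fun k => ?_) (fun F => ?_) hd0
    (fun k => ?_) ?_ φ hφ
  · exact (d k).opNorm_le_bound (norm_nonneg _) (fun x => hdb k x)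
  · exact ((hv3 F).comp hθ.tendsto_atTop).comp hf.tendsto_atTop
  · have h3 : d k (w k) = A (fun _ => w k) := by
      rw [hd]
      have h4 : A.curryLeft (w k) (fun _ => w k) = A (Fin.cons (w k) (fun _ => w k)) := rfl
      rw [h4]
      congr 1
      funext i
      refine Fin.cases ?_ (fun j => ?_) i
      · rfl
      · rfl
    rw [h3]
    exact hθA (f k)
  · intro κ κ' c' C hκ hκ' hc' x
    apply (hU.subseq κ' hκ'.injective).summable hc hr
    have h3 : Summable fun n => |C| ^ (q + 2) * |d (κ n) x| ^ (q + 2) :=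
      ((hsum x).comp_injective hκ.injective).mul_left _
    apply Summable.of_nonneg_of_le (fun n => by positivity) _ h3
    intro n
    rw [abs_mul, mul_pow]
    exact mul_le_mul_of_nonneg_right
      (pow_le_pow_left₀ (abs_nonneg _) ((hc' n).trans (le_abs_self _)) _) (by positivity)

end Pool.Helper570.Hyp
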