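import Mathlib

set_option autoImplicit false

namespace Pool.Helper570.Hyp

open Filter Topology

theorem clm_of_summable {X : Type*} [NormedAddCommGroup X] [NormedSpace ℝ X] [CompleteSpace X]
    (γ : ℕ → X →L[ℝ] ℝ) (w : ℕ → X) (hs : ∀ x, Summable fun n => γ n x • w n) :
    ∃ Q : X →L[ℝ] X, ∀ x, HasSum (fun n => γ n x • w n) (Q x) := by
  let g : ℕ → X →L[ℝ] X := fun k => ∑ n ∈ Finset.range k, (γ n).smulRight (w n)
  have hg : ∀ k x, g k x = ∑ n ∈ Finset.range k, γ n x • w n := by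
    intro k x
    simp only [g, ContinuousLinearMap.sum_apply, ContinuousLinearMap.smulRight_apply]
  have hlim : Tendsto (fun k x => g k x) atTop (𝓝 fun x => ∑' n, γ n x • w n) := by
    rw [tendsto_pi_nhds]
    intro x
    simp only [hg]
    exact (hs x).hasSum.tendsto_sum_nat
  refine ⟨continuousLinearMapOfTendsto g hlim, fun x => ?_⟩
  exact (hs x).hasSum

/-- all closed hyperplanes are isomorphic -/
theorem ker_equiv {X : Type*} [NormedAddCommGroup X] [NormedSpace ℝ X]
    (φ ψ : X →L[ℝ] ℝ) (hφ : φ ≠ 0) (hψ : ψ ≠ 0) :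
    Nonempty (↥(LinearMap.ker φ.toLinearMap) ≃L[ℝ] ↥(LinearMap.ker ψ.toLinearMap)) := by
  have h1 : ∃ a, φ a ≠ 0 := by
    by_contra hcon
    push Not at hcon
    exact hφ (ContinuousLinearMap.ext hcon)
  have h2 : ∃ a, ψ a ≠ 0 := by
    by_contra hcon
    push Not at hcon
    exact hψ (ContinuousLinearMap.ext hcon)
  obtain ⟨a, ha⟩ := h1
  obtain ⟨b, hb⟩ := h2
  obtain ⟨z, hz1, hz2⟩ : ∃ z, φ z ≠ 0 ∧ ψ z ≠ 0 := by
    by_cases h3 : ψ a = 0
    · by_cases h4 : φ b = 0
      · refine ⟨a + b, ?_, ?_⟩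
        · rw [map_add, h4, add_zero]; exact ha
        · rw [map_add, h3, zero_add]; exact hb
      · exact ⟨b, h4, hb⟩
    · exact ⟨a, ha, h3⟩
  let F : X →L[ℝ] X := ContinuousLinearMap.id ℝ X - (((ψ z)⁻¹ • ψ).smulRight z)
  let G : X →L[ℝ] X := ContinuousLinearMap.id ℝ X - (((φ z)⁻¹ • φ).smulRight z)
  have hF : ∀ x, F x = x - ((ψ z)⁻¹ * ψ x) • z := fun x => rfl
  have hG : ∀ x, G x = x - ((φ z)⁻¹ * φ x) • z := fun x => rfl
  have hF1 : ∀ x, ψ (F x) = 0 := by
    intro x
    rw [hF, map_sub, map_smul, smul_eq_mul]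
    field_simp
    ring
  have hG1 : ∀ x, φ (G x) = 0 := by
    intro x
    rw [hG, map_sub, map_smul, smul_eq_mul]
    field_simp
    ring
  have hGF : ∀ x, φ x = 0 → G (F x) = x := by
    intro x hx
    rw [hG, hF, map_sub, map_smul, hx, smul_eq_mul, zero_sub, sub_sub, ← add_smul]
    have : (ψ z)⁻¹ * ψ x + (φ z)⁻¹ * -((ψ z)⁻¹ * ψ x * φ z) = 0 := by
      field_simp
      ring
    rw [this, zero_smul, sub_zero]
  have hFG : ∀ x, ψ x = 0 → F (G x) = x := by
    intro x hx
    rw [hF, hG, map_sub, map_smul, hx, smul_eq_mul, zero_sub, sub_sub, ← add_smul]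
    have : (φ z)⁻¹ * φ x + (ψ z)⁻¹ * -((φ z)⁻¹ * φ x * ψ z) = 0 := by
      field_simp
      ring
    rw [this, zero_smul, sub_zero]
  let F' : ↥(LinearMap.ker φ.toLinearMap) →L[ℝ] ↥(LinearMap.ker ψ.toLinearMap) :=
    (F.comp (LinearMap.ker φ.toLinearMap).subtypeL).codRestrict (LinearMap.ker ψ.toLinearMap)
      (fun x => hF1 _)
  let G' : ↥(LinearMap.ker ψ.toLinearMap) →L[ℝ] ↥(LinearMap.ker φ.toLinearMap) :=
    (G.comp (LinearMap.ker ψ.toLinearMap).subtypeL).codRestrict (LinearMap.ker φ.toLinearMap)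
      (fun x => hG1 _)
  refine ⟨ContinuousLinearEquiv.equivOfInverse F' G' ?_ ?_⟩
  · intro x
    apply Subtype.ext
    exact hGF x x.2
  · intro x
    apply Subtype.ext
    exact hFG x x.2

/-- the final step: a complemented sequence with bounded shifts -/
theorem iso_of_system {X : Type*} [NormedAddCommGroup X] [NormedSpace ℝ X] [CompleteSpace X]
    (w : ℕ → X) (γ : ℕ → X →L[ℝ] ℝ)
    (h1 : ∀ n, γ n (w n) = 1) (h2 : ∀ n m, n ≠ m → γ n (w m) = 0)
    (hs0 : ∀ x, Summable fun n => γ n x • w n)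
    (hs1 : ∀ x, Summable fun n => γ n x • w (n + 1))
    (hs2 : ∀ x, Summable fun n => γ (n + 1) x • w n)
    (φ : X →L[ℝ] ℝ) (hφ : φ ≠ 0) :
    Nonempty (X ≃L[ℝ] ↥(LinearMap.ker φ.toLinearMap)) := by
  obtain ⟨Q0, hQ0⟩ := clm_of_summable γ w hs0
  obtain ⟨Q1, hQ1⟩ := clm_of_summable γ (fun n => w (n + 1)) hs1
  obtain ⟨Q2, hQ2⟩ := clm_of_summable (fun n => γ (n + 1)) w hs2
  have e0 : ∀ m x, γ m (Q0 x) = γ m x := by
    intro m x
    have ha := (hQ0 x).mapL (γ m)
    have hb : HasSum (fun n => γ m (γ n x • w n)) (γ m (γ m x • w m)) := by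
      apply hasSum_single
      intro n hn
      rw [map_smul, h2 m n (Ne.symm hn), smul_zero]
    rw [ha.unique hb, map_smul, h1, smul_eq_mul, mul_one]
  have e1 : ∀ m x, γ (m + 1) (Q1 x) = γ m x := by
    intro m x
    have ha := (hQ1 x).mapL (γ (m + 1))
    have hb : HasSum (fun n => γ (m + 1) (γ n x • w (n + 1))) (γ (m + 1) (γ m x • w (m + 1))) := by
      apply hasSum_single
      intro n hn
      rw [map_smul, h2 (m + 1) (n + 1) (by omega), smul_zero]
    rw [ha.unique hb, map_smul, h1, smul_eq_mul, mul_one]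
  have e1' : ∀ x, γ 0 (Q1 x) = 0 := by
    intro x
    have ha := (hQ1 x).mapL (γ 0)
    have hb : HasSum (fun n => γ 0 (γ n x • w (n + 1))) 0 := by
      have : (fun n => γ 0 (γ n x • w (n + 1))) = fun _ => (0 : ℝ) := by
        funext n
        rw [map_smul, h2 0 (n + 1) (by omega), smul_zero]
      rw [this]
      exact hasSum_zero
    exact ha.unique hb
  have e2 : ∀ m x, γ m (Q2 x) = γ (m + 1) x := by
    intro m x
    have ha := (hQ2 x).mapL (γ m)
    have hb : HasSum (fun n => γ m (γ (n + 1) x • w n)) (γ m (γ (m + 1) x • w m)) := by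
      apply hasSum_single
      intro n hn
      rw [map_smul, h2 m n (Ne.symm hn), smul_zero]
    rw [ha.unique hb, map_smul, h1, smul_eq_mul, mul_one]
  let U : X →L[ℝ] X := ContinuousLinearMap.id ℝ X - Q0 + Q1
  let V : X →L[ℝ] X := ContinuousLinearMap.id ℝ X - Q0 + Q2
  have hU : ∀ x, U x = x - Q0 x + Q1 x := fun x => rfl
  have hV : ∀ x, V x = x - Q0 x + Q2 x := fun x => rfl
  have gU : ∀ m x, γ (m + 1) (U x) = γ m x := by
    intro m x
    rw [hU, map_add, map_sub, e0, e1, sub_self, zero_add]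
  have gU0 : ∀ x, γ 0 (U x) = 0 := by
    intro x
    rw [hU, map_add, map_sub, e0, e1', sub_self, zero_add]
  have gV : ∀ m x, γ m (V x) = γ (m + 1) x := by
    intro m x
    rw [hV, map_add, map_sub, e0, e2, sub_self, zero_add]
  have q0U : ∀ x, Q0 (U x) = Q1 x := by
    intro x
    have ha := hQ0 (U x)
    have hb : HasSum (fun n => γ (n + 1) (U x) • w (n + 1)) (Q1 x) := by
      have : (fun n => γ (n + 1) (U x) • w (n + 1)) = fun n => γ n x • w (n + 1) := by
        funext n; rw [gU]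
      rw [this]
      exact hQ1 x
    have hc := (hasSum_nat_add_iff' (f := fun n => γ n (U x) • w n) 1).2 ha
    simp only [Finset.range_one, Finset.sum_singleton, gU0, zero_smul, sub_zero] at hc
    exact hc.unique hb
  have q2U : ∀ x, Q2 (U x) = Q0 x := by
    intro x
    have ha := hQ2 (U x)
    have : (fun n => γ (n + 1) (U x) • w n) = fun n => γ n x • w n := by
      funext n; rw [gU]
    rw [this] at ha
    exact ha.unique (hQ0 x)
  have q0V : ∀ x, Q0 (V x) = Q2 x := by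
    intro x
    have ha := hQ0 (V x)
    have : (fun n => γ n (V x) • w n) = fun n => γ (n + 1) x • w n := by
      funext n; rw [gV]
    rw [this] at ha
    exact ha.unique (hQ2 x)
  have q1V : ∀ x, Q1 (V x) = Q0 x - γ 0 x • w 0 := by
    intro x
    have ha := hQ1 (V x)
    have : (fun n => γ n (V x) • w (n + 1)) = fun n => γ (n + 1) x • w (n + 1) := by
      funext n; rw [gV]
    rw [this] at ha
    have hc := (hasSum_nat_add_iff' (f := fun n => γ n x • w n) 1).2 (hQ0 x)
    simp only [Finset.range_one, Finset.sum_singleton] at hc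
    exact ha.unique hc
  have hVU : ∀ x, V (U x) = x := by
    intro x
    rw [hV, q0U, q2U, hU]
    abel
  have hUV : ∀ x, γ 0 x = 0 → U (V x) = x := by
    intro x hx
    rw [hU, q0V, q1V, hx, zero_smul, sub_zero, hV]
    abel
  have hγ0 : γ 0 ≠ 0 := by
    intro h
    have := h1 0
    rw [h] at this
    simp at this
  let U' : X →L[ℝ] ↥(LinearMap.ker (γ 0).toLinearMap) :=
    U.codRestrict (LinearMap.ker (γ 0).toLinearMap) (fun x => gU0 x)
  let V' : ↥(LinearMap.ker (γ 0).toLinearMap) →L[ℝ] X :=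
    V.comp (LinearMap.ker (γ 0).toLinearMap).subtypeL
  have E1 : X ≃L[ℝ] ↥(LinearMap.ker (γ 0).toLinearMap) := by
    refine ContinuousLinearEquiv.equivOfInverse U' V' ?_ ?_
    · intro x
      exact hVU x
    · intro x
      apply Subtype.ext
      exact hUV x x.2
  obtain ⟨E2⟩ := ker_equiv (γ 0) φ hγ0 hφ
  exact ⟨E1.trans E2⟩

end Pool.Helper570.Hyp
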