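import Pool.Agent.Helper570.Hyp.CaseR
import Pool.Agent.Helper570.Hyp.CaseC0
import Pool.Agent.Helper570.NCS.Greedy

set_option autoImplicit false

namespace Pool.Helper570.Hyp

open Filter Topology NormedSpace Metric Pool.Helper570.NCS

/-- separable spaces with a smooth bump are isomorphic to their hyperplanes -/
theorem iso_of_bump {X : Type*} [NormedAddCommGroup X] [NormedSpace ℝ X] [CompleteSpace X]
    [TopologicalSpace.SeparableSpace X] (hX : ¬ FiniteDimensional ℝ X)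
    (f : X → ℝ) (hf : ContDiff ℝ ((⊤ : ℕ∞) : WithTop ℕ∞) f)
    (hne : (Function.support f).Nonempty) (hbd : Bornology.IsBounded (Function.support f))
    (φ : X →L[ℝ] ℝ) (hφ : φ ≠ 0) :
    Nonempty (X ≃L[ℝ] ↥(LinearMap.ker φ.toLinearMap)) := by
  classical
  obtain ⟨x₀, hx₀⟩ := hne
  rw [Function.mem_support] at hx₀
  obtain ⟨R₀, hR₀⟩ := hbd.exists_norm_le
  let b : X → ℝ := fun x => f (x + x₀) / f x₀
  let g : X → ℝ := fun x => 1 - (b x * b (-x)) ^ 2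
  have hb : ContDiff ℝ ((⊤ : ℕ∞) : WithTop ℕ∞) b :=
    (hf.comp (contDiff_id.add contDiff_const)).div_const _
  have hg : ContDiff ℝ ((⊤ : ℕ∞) : WithTop ℕ∞) g :=
    contDiff_const.sub ((hb.mul (hb.comp contDiff_neg)).pow 2)
  have hb0 : b 0 = 1 := by
    show f (0 + x₀) / f x₀ = 1
    rw [zero_add, div_self hx₀]
  have heven : ∀ x, g (-x) = g x := by
    intro x
    show 1 - (b (-x) * b (-(-x))) ^ 2 = 1 - (b x * b (-x)) ^ 2
    rw [neg_neg]; ring
  have hg0 : g 0 ≤ 0 := by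
    show 1 - (b 0 * b (-0)) ^ 2 ≤ 0
    rw [neg_zero, hb0]; norm_num
  have hg1 : ∀ x, g x ≤ 1 := by
    intro x
    have : 0 ≤ (b x * b (-x)) ^ 2 := sq_nonneg _
    show 1 - (b x * b (-x)) ^ 2 ≤ 1
    linarith
  have hR : ∀ x, g x < 1 → ‖x‖ ≤ |R₀| + ‖x₀‖ := by
    intro x hx
    have h1 : f (x + x₀) ≠ 0 := by
      intro h
      have h2 : g x = 1 := by
        show 1 - (f (x + x₀) / f x₀ * b (-x)) ^ 2 = 1
        rw [h]; simp
      linarith
    have h3 := hR₀ _ (Function.mem_support.2 h1)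
    have h4 : ‖x‖ ≤ ‖x + x₀‖ + ‖x₀‖ := by
      have := norm_sub_le (x + x₀) x₀
      rwa [add_sub_cancel_right] at this
    linarith [le_abs_self R₀]
  rcases dichotomy g heven hg0 (|R₀| + ‖x₀‖) hR with ⟨u, δ, hδ, hlow, hu⟩ | ⟨𝒦, h𝒦, hpack⟩
  · exact iso_of_wuc u (|R₀| + ‖x₀‖) δ (by positivity) hδ hu hlow φ hφ
  · exact iso_of_pack hX g hg hg1 𝒦 h𝒦 hpack φ hφ

end Pool.Helper570.Hyp
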