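import Mathlib

set_option autoImplicit false

namespace Pool.Helper570.Hyp

open Filter Topology Metric

/-- all `j`-homogeneous polynomials tend to zero along `v` -/
def Nul {X : Type*} [NormedAddCommGroup X] [NormedSpace ℝ X] (v : ℕ → X) (j : ℕ) : Prop :=
  ∀ A : ContinuousMultilinearMap ℝ (fun _ : Fin j => X) ℝ,
    Tendsto (fun i => A (fun _ => v i)) atTop (𝓝 0)

theorem taylor_local {X : Type*} [NormedAddCommGroup X] [NormedSpace ℝ X]
    (g : X → ℝ) (hg : ContDiff ℝ ((⊤ : ℕ∞) : WithTop ℕ∞) g) (n : ℕ) (x : X) :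
    ∃ r : ℝ, 0 < r ∧ ∃ M : ℝ, 0 < M ∧ ∀ w : X, ‖w - x‖ < 2 * r → ∀ h : X, ‖h‖ ≤ r →
      |g (w + h) - ∑ j ∈ Finset.range (n + 1), ((j.factorial : ℝ)⁻¹) *
        (iteratedFDeriv ℝ j g w (fun _ => h))| ≤ M * ‖h‖ ^ (n + 1) := by
  have hcont : Continuous (iteratedFDeriv ℝ (n + 1) g) :=
    hg.continuous_iteratedFDeriv (by exact_mod_cast le_top)
  obtain ⟨r, hr, hball⟩ := Metric.continuousAt_iff.1 (hcont.continuousAt (x := x)) 1 one_pos
  refine ⟨r / 3, by positivity, ‖iteratedFDeriv ℝ (n + 1) g x‖ + 1, by positivity, ?_⟩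
  intro w hw h hh
  have hgn : ContDiff ℝ ((n : WithTop ℕ∞) + 1) g := hg.of_le (by
    have : ((n : WithTop ℕ∞) + 1) = (((n + 1 : ℕ) : ℕ∞) : WithTop ℕ∞) := by norm_cast
    rw [this]
    exact_mod_cast le_top)
  have key := map_add_eq_sum_add_integral_iteratedFDeriv (f := g) (x := w) (y := h) (n := n)
    (fun t _ => hgn.contDiffAt)
  have hb : ∀ t ∈ Set.uIoc (0 : ℝ) 1,
      ‖(1 - t) ^ n • iteratedFDeriv ℝ (n + 1) g (w + t • h) (fun _ => h)‖
        ≤ (‖iteratedFDeriv ℝ (n + 1) g x‖ + 1) * ‖h‖ ^ (n + 1) := by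
    intro t ht
    rw [Set.uIoc_of_le zero_le_one] at ht
    have h1 : ‖(1 - t) ^ n‖ ≤ 1 := by
      rw [norm_pow, Real.norm_eq_abs, abs_of_nonneg (by linarith [ht.2])]
      exact pow_le_one₀ (by linarith [ht.2]) (by linarith [ht.1])
    have h2 : ‖iteratedFDeriv ℝ (n + 1) g (w + t • h)‖ ≤ ‖iteratedFDeriv ℝ (n + 1) g x‖ + 1 := by
      have h3 : dist (w + t • h) x < r := by
        rw [dist_eq_norm]
        have h4 : ‖w + t • h - x‖ ≤ ‖w - x‖ + ‖t • h‖ := by
          rw [show w + t • h - x = (w - x) + t • h by abel]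
          exact norm_add_le _ _
        have h5 : ‖t • h‖ ≤ ‖h‖ := by
          rw [norm_smul, Real.norm_eq_abs, abs_of_pos ht.1]
          have := mul_le_mul_of_nonneg_right ht.2 (norm_nonneg h)
          linarith
        linarith
      have h6 := hball h3
      rw [dist_eq_norm] at h6
      have h7 := norm_add_le (iteratedFDeriv ℝ (n + 1) g (w + t • h) - iteratedFDeriv ℝ (n + 1) g x)
        (iteratedFDeriv ℝ (n + 1) g x)
      rw [sub_add_cancel] at h7
      linarith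
    rw [norm_smul]
    calc ‖(1 - t) ^ n‖ * ‖iteratedFDeriv ℝ (n + 1) g (w + t • h) (fun _ => h)‖
        ≤ 1 * (‖iteratedFDeriv ℝ (n + 1) g (w + t • h)‖ * ∏ _i : Fin (n + 1), ‖h‖) :=
          mul_le_mul h1 (ContinuousMultilinearMap.le_opNorm _ _) (norm_nonneg _) zero_le_one
      _ = ‖iteratedFDeriv ℝ (n + 1) g (w + t • h)‖ * ‖h‖ ^ (n + 1) := by
          rw [one_mul, Finset.prod_const, Finset.card_univ, Fintype.card_fin]
      _ ≤ _ := mul_le_mul_of_nonneg_right h2 (by positivity)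
  have hint := intervalIntegral.norm_integral_le_of_norm_le_const hb
  rw [sub_zero, abs_one, mul_one] at hint
  have e : g (w + h) - ∑ j ∈ Finset.range (n + 1), ((j.factorial : ℝ)⁻¹) *
        (iteratedFDeriv ℝ j g w (fun _ => h)) = (n.factorial : ℝ)⁻¹ •
        ∫ t in (0 : ℝ)..1, (1 - t) ^ n • iteratedFDeriv ℝ (n + 1) g (w + t • h) (fun _ => h) := by
    rw [key]
    simp only [smul_eq_mul]
    ring
  rw [e, ← Real.norm_eq_abs, norm_smul]
  have hf : ‖(n.factorial : ℝ)⁻¹‖ ≤ 1 := by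
    rw [norm_inv, Real.norm_eq_abs, abs_of_pos (by positivity)]
    apply inv_le_one_of_one_le₀
    exact_mod_cast Nat.succ_le_of_lt (Nat.factorial_pos n)
  calc ‖(n.factorial : ℝ)⁻¹‖ * ‖∫ t in (0 : ℝ)..1, (1 - t) ^ n •
        iteratedFDeriv ℝ (n + 1) g (w + t • h) (fun _ => h)‖
      ≤ 1 * ((‖iteratedFDeriv ℝ (n + 1) g x‖ + 1) * ‖h‖ ^ (n + 1)) :=
        mul_le_mul hf hint (norm_nonneg _) zero_le_one
    _ = _ := one_mul _

theorem taylor_compact {X : Type*} [NormedAddCommGroup X] [NormedSpace ℝ X]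
    (g : X → ℝ) (hg : ContDiff ℝ ((⊤ : ℕ∞) : WithTop ℕ∞) g) (n : ℕ) (𝒦 : Set X)
    (h𝒦 : IsCompact 𝒦) :
    ∃ r : ℝ, 0 < r ∧ ∃ M : ℝ, 0 < M ∧ ∀ k ∈ 𝒦, ∀ y : X, ‖y‖ ≤ r → ∀ h : X, ‖h‖ ≤ r →
      |g (k + y + h) - ∑ j ∈ Finset.range (n + 1), ((j.factorial : ℝ)⁻¹) *
        (iteratedFDeriv ℝ j g (k + y) (fun _ => h))| ≤ M * ‖h‖ ^ (n + 1) := by
  refine h𝒦.induction_on (p := fun s => ∃ r : ℝ, 0 < r ∧ ∃ M : ℝ, 0 < M ∧ ∀ k ∈ s, ∀ y : X,
      ‖y‖ ≤ r → ∀ h : X, ‖h‖ ≤ r →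
      |g (k + y + h) - ∑ j ∈ Finset.range (n + 1), ((j.factorial : ℝ)⁻¹) *
        (iteratedFDeriv ℝ j g (k + y) (fun _ => h))| ≤ M * ‖h‖ ^ (n + 1)) ?_ ?_ ?_ ?_
  · exact ⟨1, one_pos, 1, one_pos, fun k hk => absurd hk (Set.notMem_empty k)⟩
  · rintro s t hst ⟨r, hr, M, hM, h⟩
    exact ⟨r, hr, M, hM, fun k hk => h k (hst hk)⟩
  · rintro s t ⟨r, hr, M, hM, h⟩ ⟨r', hr', M', hM', h'⟩
    refine ⟨min r r', lt_min hr hr', max M M', lt_max_of_lt_left hM, ?_⟩
    intro k hk y hy u hu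
    have hu2 : 0 ≤ ‖u‖ ^ (n + 1) := by positivity
    rcases hk with hk | hk
    · have a1 := h k hk y (hy.trans (min_le_left _ _)) u (hu.trans (min_le_left _ _))
      exact a1.trans (mul_le_mul_of_nonneg_right (le_max_left _ _) hu2)
    · have a1 := h' k hk y (hy.trans (min_le_right _ _)) u (hu.trans (min_le_right _ _))
      exact a1.trans (mul_le_mul_of_nonneg_right (le_max_right _ _) hu2)
  · intro x _
    obtain ⟨r, hr, M, hM, h⟩ := taylor_local g hg n x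
    refine ⟨ball x r, mem_nhdsWithin_of_mem_nhds (ball_mem_nhds x hr), r, hr, M, hM, ?_⟩
    intro k hk y hy u hu
    apply h (k + y) _ u hu
    rw [mem_ball, dist_eq_norm] at hk
    have h1 : ‖k + y - x‖ ≤ ‖k - x‖ + ‖y‖ := by
      rw [show k + y - x = (k - x) + y by abel]
      exact norm_add_le _ _
    linarith

/-- uniform version of `Nul` on compact sets of forms -/
theorem unif_null {X : Type*} [NormedAddCommGroup X] [NormedSpace ℝ X] (v : ℕ → X) (V : ℝ)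
    (hV : ∀ i, ‖v i‖ ≤ V) (j : ℕ) (hn : Nul v j)
    (𝒞 : Set (ContinuousMultilinearMap ℝ (fun _ : Fin j => X) ℝ)) (h𝒞 : IsCompact 𝒞)
    (ε : ℝ) (hε : 0 < ε) : ∀ᶠ i in atTop, ∀ A ∈ 𝒞, |A (fun _ => v i)| ≤ ε := by
  have hV0 : 0 ≤ V := (norm_nonneg _).trans (hV 0)
  refine h𝒞.induction_on (p := fun s => ∀ᶠ i in atTop, ∀ A ∈ s, |A (fun _ => v i)| ≤ ε)
    ?_ ?_ ?_ ?_
  · exact Eventually.of_forall fun i A hA => absurd hA (Set.notMem_empty A)
  · intro s t hst h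
    exact h.mono fun i hi A hA => hi A (hst hA)
  · intro s t hs ht
    filter_upwards [hs, ht] with i h1 h2 A hA
    rcases hA with hA | hA
    · exact h1 A hA
    · exact h2 A hA
  · intro A₀ _
    have hp : 0 < ε / (2 * (V ^ j + 1)) := by positivity
    refine ⟨ball A₀ (ε / (2 * (V ^ j + 1))), mem_nhdsWithin_of_mem_nhds (ball_mem_nhds A₀ hp), ?_⟩
    have h1 : ∀ᶠ i in atTop, |A₀ (fun _ => v i)| < ε / 2 := by
      obtain ⟨m, hm⟩ := (Metric.tendsto_atTop.1 (hn A₀)) (ε / 2) (by positivity)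
      filter_upwards [eventually_ge_atTop m] with i hi
      simpa [Real.dist_eq] using hm i hi
    filter_upwards [h1] with i hi A hA
    rw [mem_ball, dist_eq_norm] at hA
    have h2 : |(A - A₀) (fun _ => v i)| ≤ ‖A - A₀‖ * V ^ j := by
      have h3 := (A - A₀).le_opNorm (fun _ => v i)
      rw [Finset.prod_const, Finset.card_univ, Fintype.card_fin, Real.norm_eq_abs] at h3
      exact h3.trans (mul_le_mul_of_nonneg_left
        (pow_le_pow_left₀ (norm_nonneg _) (hV i) j) (norm_nonneg _))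
    have h4 : ‖A - A₀‖ * V ^ j ≤ ε / 2 := by
      calc ‖A - A₀‖ * V ^ j ≤ ε / (2 * (V ^ j + 1)) * (V ^ j + 1) :=
            mul_le_mul hA.le (by linarith) (by positivity) hp.le
        _ = ε / 2 := by field_simp
    have h5 : A (fun _ => v i) = A₀ (fun _ => v i) + (A - A₀) (fun _ => v i) := by
      have : (A - A₀) (fun _ => v i) = A (fun _ => v i) - A₀ (fun _ => v i) := rfl
      rw [this]; ring
    rw [h5]
    refine (abs_add_le _ _).trans ?_
    linarith

/-- the basic step: along `v` the function `g` grows at most like `|t|^p` near finitely many points -/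
theorem step_g {X : Type*} [NormedAddCommGroup X] [NormedSpace ℝ X]
    (g : X → ℝ) (hg : ContDiff ℝ ((⊤ : ℕ∞) : WithTop ℕ∞) g) (n : ℕ) (r M : ℝ) (hM : 0 < M)
    (k : X)
    (hT : ∀ y : X, ‖y‖ ≤ r → ∀ h : X, ‖h‖ ≤ r →
      |g (k + y + h) - ∑ j ∈ Finset.range (n + 1), ((j.factorial : ℝ)⁻¹) *
        (iteratedFDeriv ℝ j g (k + y) (fun _ => h))| ≤ M * ‖h‖ ^ (n + 1))
    (v : ℕ → X) (V : ℝ) (hV : ∀ i, ‖v i‖ ≤ V) (hn : ∀ j, 1 ≤ j → j < n + 1 → Nul v j)
    (T : ℝ) (hT0 : 0 ≤ T) (hTV : T * V ≤ r) (C : Set X) (hC : IsCompact C)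
    (hCr : ∀ y ∈ C, ‖y‖ ≤ r) (ε : ℝ) (hε : 0 < ε) :
    ∀ᶠ i in atTop, ∀ y ∈ C, ∀ t : ℝ, |t| ≤ T →
      |g (k + y + t • v i) - g (k + y)| ≤ M * V ^ (n + 1) * |t| ^ (n + 1) + ε := by
  classical
  have hV0 : 0 ≤ V := (norm_nonneg _).trans (hV 0)
  -- uniform smallness of the lower order terms
  have h1 : ∀ j ∈ Finset.range n, ∀ᶠ i in atTop, ∀ y ∈ C,
      |iteratedFDeriv ℝ (j + 1) g (k + y) (fun _ => v i)| ≤ ε / ((n + 1) * (T + 1) ^ (n + 1)) := by
    intro j hj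
    rw [Finset.mem_range] at hj
    have hcont : Continuous fun y => iteratedFDeriv ℝ (j + 1) g (k + y) :=
      (hg.continuous_iteratedFDeriv (by exact_mod_cast le_top)).comp
        (continuous_const.add continuous_id)
    have h2 := unif_null v V hV (j + 1) (hn (j + 1) (by omega) (by omega)) _ (hC.image hcont)
      (ε / ((n + 1) * (T + 1) ^ (n + 1))) (by positivity)
    filter_upwards [h2] with i hi y hy
    exact hi _ ⟨y, hy, rfl⟩
  have h2 : ∀ᶠ i in atTop, ∀ j ∈ Finset.range n, ∀ y ∈ C,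
      |iteratedFDeriv ℝ (j + 1) g (k + y) (fun _ => v i)| ≤ ε / ((n + 1) * (T + 1) ^ (n + 1)) :=
    (Finset.eventually_all _).2 h1
  filter_upwards [h2] with i hi y hy t ht
  have htv : ‖t • v i‖ ≤ r := by
    rw [norm_smul, Real.norm_eq_abs]
    exact (mul_le_mul ht (hV i) (norm_nonneg _) hT0).trans hTV
  have h3 := hT y (hCr y hy) (t • v i) htv
  rw [Finset.sum_range_succ'] at h3
  simp only [Nat.factorial_zero, Nat.cast_one, inv_one, iteratedFDeriv_zero_apply, one_mul] at h3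
  have h4 : |∑ j ∈ Finset.range n, (((j + 1).factorial : ℝ)⁻¹) *
      (iteratedFDeriv ℝ (j + 1) g (k + y) (fun _ => t • v i))| ≤ ε := by
    refine (Finset.abs_sum_le_sum_abs _ _).trans ?_
    have h5 : ∀ j ∈ Finset.range n, |(((j + 1).factorial : ℝ)⁻¹) *
        (iteratedFDeriv ℝ (j + 1) g (k + y) (fun _ => t • v i))| ≤ ε / (n + 1) := by
      intro j hj
      have h6 := hi j hj y hy
      have h7 : iteratedFDeriv ℝ (j + 1) g (k + y) (fun _ => t • v i)
          = t ^ (j + 1) * iteratedFDeriv ℝ (j + 1) g (k + y) (fun _ => v i) := by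
        have := (iteratedFDeriv ℝ (j + 1) g (k + y)).map_smul_univ (fun _ => t) (fun _ => v i)
        rw [Finset.prod_const, Finset.card_univ, Fintype.card_fin, smul_eq_mul] at this
        exact this
      rw [h7, abs_mul, abs_mul, abs_pow]
      have h8 : |(((j + 1).factorial : ℝ)⁻¹)| ≤ 1 := by
        rw [abs_of_pos (by positivity)]
        apply inv_le_one_of_one_le₀
        exact_mod_cast Nat.succ_le_of_lt (Nat.factorial_pos (j + 1))
      have h9 : |t| ^ (j + 1) ≤ (T + 1) ^ (n + 1) := by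
        calc |t| ^ (j + 1) ≤ (T + 1) ^ (j + 1) :=
              pow_le_pow_left₀ (abs_nonneg _) (by linarith) _
          _ ≤ (T + 1) ^ (n + 1) := by
              apply pow_le_pow_right₀ (by linarith)
              rw [Finset.mem_range] at hj
              omega
      calc |(((j + 1).factorial : ℝ)⁻¹)| * (|t| ^ (j + 1) *
            |iteratedFDeriv ℝ (j + 1) g (k + y) (fun _ => v i)|)
          ≤ 1 * ((T + 1) ^ (n + 1) * (ε / ((n + 1) * (T + 1) ^ (n + 1)))) := by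
            apply mul_le_mul h8 _ (by positivity) zero_le_one
            exact mul_le_mul h9 h6 (abs_nonneg _) (by positivity)
        _ = ε / (n + 1) := by field_simp
    refine (Finset.sum_le_sum h5).trans ?_
    rw [Finset.sum_const, Finset.card_range, nsmul_eq_mul]
    have : (n : ℝ) * (ε / (n + 1)) ≤ (n + 1) * (ε / (n + 1)) :=
      mul_le_mul_of_nonneg_right (by linarith) (by positivity)
    calc (n : ℝ) * (ε / (n + 1)) ≤ (n + 1) * (ε / (n + 1)) := this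
      _ = ε := by field_simp
  have h10 : ‖t • v i‖ ^ (n + 1) ≤ V ^ (n + 1) * |t| ^ (n + 1) := by
    rw [norm_smul, Real.norm_eq_abs, mul_pow, mul_comm]
    exact mul_le_mul_of_nonneg_right (pow_le_pow_left₀ (norm_nonneg _) (hV i) _) (by positivity)
  have h11 : M * ‖t • v i‖ ^ (n + 1) ≤ M * (V ^ (n + 1) * |t| ^ (n + 1)) :=
    mul_le_mul_of_nonneg_left h10 hM.le
  have h12 := abs_le.1 h3
  have h13 := abs_le.1 h4
  rw [abs_le]
  constructor
  · nlinarith [h12.1, h12.2, h13.1, h13.2]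
  · nlinarith [h12.1, h12.2, h13.1, h13.2]

end Pool.Helper570.Hyp
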