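import Pool.Agent.Helper570.Hyp.Taylor
import Pool.Agent.Helper570.Hyp.Basic

set_option autoImplicit false

namespace Pool.Helper570.Hyp

open Filter Topology Metric

/-- upper estimate -/
def Upp {X : Type*} [NormedAddCommGroup X] [NormedSpace ℝ X] (w : ℕ → X) (p : ℕ) (c r : ℝ) :
    Prop :=
  ∀ (F : Finset ℕ) (a : ℕ → ℝ), ∑ k ∈ F, |a k| ^ p ≤ c → ‖∑ k ∈ F, a k • w k‖ ≤ r

theorem Upp.subseq {X : Type*} [NormedAddCommGroup X] [NormedSpace ℝ X] {w : ℕ → X} {p : ℕ}
    {c r : ℝ} (h : Upp w p c r) (φ : ℕ → ℕ) (hφ : Function.Injective φ) :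
    Upp (fun k => w (φ k)) p c r := by
  classical
  intro F a ha
  have e1 : ∑ k ∈ F, a k • w (φ k)
      = ∑ j ∈ F.map ⟨φ, hφ⟩, (Function.extend φ a 0) j • w j := by
    rw [Finset.sum_map]
    apply Finset.sum_congr rfl
    intro i _
    rw [Function.Embedding.coeFn_mk, hφ.extend_apply]
  have e2 : ∑ j ∈ F.map ⟨φ, hφ⟩, |(Function.extend φ a 0) j| ^ p = ∑ k ∈ F, |a k| ^ p := by
    rw [Finset.sum_map]
    apply Finset.sum_congr rfl
    intro i _
    rw [Function.Embedding.coeFn_mk, hφ.extend_apply]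
  rw [e1]
  exact h _ _ (by rw [e2]; exact ha)

theorem Upp.summable {X : Type*} [NormedAddCommGroup X] [NormedSpace ℝ X] [CompleteSpace X]
    {w : ℕ → X} {p : ℕ} {c r : ℝ} (hc : 0 < c) (hr : 0 < r) (h : Upp w p c r)
    (a : ℕ → ℝ) (ha : Summable fun n => |a n| ^ p) : Summable fun n => a n • w n := by
  rw [summable_iff_vanishing_norm]
  intro ε hε
  set t : ℝ := 2 * r / ε with ht
  have ht0 : 0 < t := by positivity
  obtain ⟨s, hs⟩ := summable_iff_vanishing_norm.1 ha (c / t ^ p) (by positivity)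
  refine ⟨s, fun u hu => ?_⟩
  have h1 := (le_abs_self _).trans (hs u hu).le
  have h2 : ∑ n ∈ u, |t * a n| ^ p ≤ c := by
    have e : ∀ n, |t * a n| ^ p = t ^ p * |a n| ^ p := by
      intro n
      rw [abs_mul, mul_pow, abs_of_pos ht0]
    simp_rw [e]
    rw [← Finset.mul_sum]
    calc t ^ p * ∑ n ∈ u, |a n| ^ p ≤ t ^ p * (c / t ^ p) :=
          mul_le_mul_of_nonneg_left h1 (by positivity)
      _ = c := by field_simp
  have h3 := h u (fun n => t * a n) h2
  have h4 : ∑ n ∈ u, (t * a n) • w n = t • ∑ n ∈ u, a n • w n := by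
    rw [Finset.smul_sum]
    apply Finset.sum_congr rfl
    intro n _
    rw [smul_smul]
  rw [h4, norm_smul, Real.norm_eq_abs, abs_of_pos ht0] at h3
  have h5 : t * (ε / 2) = r := by
    rw [ht]; field_simp
  have h6 : ‖∑ n ∈ u, a n • w n‖ ≤ ε / 2 := by
    rw [← h5] at h3
    exact le_of_mul_le_mul_left h3 ht0
  linarith

theorem compact_ball_span {X : Type*} [NormedAddCommGroup X] [NormedSpace ℝ X] (s : Finset X)
    (r : ℝ) : IsCompact (closedBall (0 : X) r ∩ (Submodule.span ℝ (s : Set X) : Set X)) := by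
  set W := Submodule.span ℝ (s : Set X) with hW
  have _ : FiniteDimensional ℝ W := FiniteDimensional.span_finset ℝ s
  have _ : ProperSpace W := FiniteDimensional.proper ℝ W
  have h := (isCompact_closedBall (0 : W) r).image continuous_subtype_val
  have e : closedBall (0 : X) r ∩ (W : Set X) = Subtype.val '' closedBall (0 : W) r := by
    ext x
    constructor
    · rintro ⟨h1, h2⟩
      refine ⟨⟨x, h2⟩, ?_, rfl⟩
      rw [mem_closedBall_zero_iff] at h1 ⊢
      exact h1
    · rintro ⟨y, hy, rfl⟩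
      refine ⟨?_, y.2⟩
      rw [mem_closedBall_zero_iff] at hy ⊢
      exact hy
  rw [e]
  exact h

theorem geo_quarter (m : ℕ) : ∑ k ∈ Finset.range m, (1 / 4 : ℝ) ^ (k + 1) ≤ 1 / 3 := by
  have h : ∑ k ∈ Finset.range m, (1 / 4 : ℝ) ^ (k + 1) = (1 - (1 / 4 : ℝ) ^ m) / 3 := by
    induction m with
    | zero => simp
    | succ m ih =>
      rw [Finset.sum_range_succ, ih, pow_succ]
      ring
  rw [h]
  have : (0 : ℝ) < (1 / 4 : ℝ) ^ m := by positivity
  linarith

theorem upper {X : Type*} [NormedAddCommGroup X] [NormedSpace ℝ X]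
    (g : X → ℝ) (hg : ContDiff ℝ ((⊤ : ℕ∞) : WithTop ℕ∞) g) (hg1 : ∀ x, g x ≤ 1)
    (𝒦 : Set X) (h𝒦 : IsCompact 𝒦)
    (hpack : ∀ ρ : ℝ, 0 < ρ → ∃ (K : Finset X) (a b : ℝ), a < b ∧
      (∀ k ∈ K, k ∈ 𝒦) ∧ (∀ k ∈ K, g k ≤ a) ∧ ∀ h, ρ ≤ ‖h‖ → ∃ k ∈ K, b < g (k + h))
    (n : ℕ) (v : ℕ → X) (hv : ∀ i, ‖v i‖ ≤ 1) (hn : ∀ j, 1 ≤ j → j < n + 1 → Nul v j) :
    ∃ (f : ℕ → ℕ) (c r : ℝ), StrictMono f ∧ 0 < c ∧ 0 < r ∧
      Upp (fun k => v (f k)) (n + 1) c r := by
  classical
  obtain ⟨r, hr, M, hM, hT⟩ := taylor_compact g hg n 𝒦 h𝒦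
  obtain ⟨K, a, b, hab, hK𝒦, hKa, hfar⟩ := hpack r hr
  set κ : ℝ := (K.card : ℝ) with hκ
  have hκ0 : 0 ≤ κ := Nat.cast_nonneg _
  set l : ℝ := Real.log (κ + 1) / (b - a) with hl
  have hl0 : 0 ≤ l := div_nonneg (Real.log_nonneg (by linarith)) (by linarith)
  have hlb : Real.exp (l * (b - a)) = κ + 1 := by
    rw [hl, div_mul_cancel₀ _ (by linarith), Real.exp_log (by linarith)]
  let Φ : X → ℝ := fun y => ∑ k ∈ K, Real.exp (l * (g (k + y) - a))
  have hΦz : Φ 0 ≤ κ := by
    show ∑ k ∈ K, Real.exp (l * (g (k + 0) - a)) ≤ κ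
    have h1 : ∑ k ∈ K, Real.exp (l * (g (k + 0) - a)) ≤ ∑ k ∈ K, (1 : ℝ) := by
      apply Finset.sum_le_sum
      intro k hk
      rw [add_zero, Real.exp_le_one_iff]
      exact mul_nonpos_of_nonneg_of_nonpos hl0 (by linarith [hKa k hk])
    simpa using h1
  have hΦfar : ∀ y, r ≤ ‖y‖ → κ + 1 ≤ Φ y := by
    intro y hy
    obtain ⟨k, hk, hbk⟩ := hfar y hy
    calc κ + 1 = Real.exp (l * (b - a)) := hlb.symm
      _ ≤ Real.exp (l * (g (k + y) - a)) :=
          Real.exp_le_exp.2 (mul_le_mul_of_nonneg_left (by linarith) hl0)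
      _ ≤ Φ y := Finset.single_le_sum (f := fun k => Real.exp (l * (g (k + y) - a)))
          (fun _ _ => (Real.exp_pos _).le) hk
  set E : ℝ := Real.exp (l * (1 - a)) with hE
  have hEp : 0 < E := Real.exp_pos _
  set M' : ℝ := κ * (E * (l * M)) + 1 with hM'
  have hM'0 : 1 ≤ M' := by
    have : 0 ≤ κ * (E * (l * M)) := by positivity
    linarith
  have hstep : ∀ C : Set X, IsCompact C → (∀ y ∈ C, ‖y‖ ≤ r) → ∀ ε : ℝ, 0 < ε →
      ∀ᶠ i in atTop, ∀ y ∈ C, ∀ t : ℝ, |t| ≤ r →
        Φ (y + t • v i) ≤ Φ y + M' * |t| ^ (n + 1) + ε := by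
    intro C hC hCr ε hε
    set ε' : ℝ := ε / (κ * (E * l) + 1) with hε'
    have hε'p : 0 < ε' := by positivity
    have h1 : ∀ k ∈ K, ∀ᶠ i in atTop, ∀ y ∈ C, ∀ t : ℝ, |t| ≤ r →
        |g (k + y + t • v i) - g (k + y)| ≤ M * 1 ^ (n + 1) * |t| ^ (n + 1) + ε' := fun k hk =>
      step_g g hg n r M hM k (hT k (hK𝒦 k hk)) v 1 hv hn r hr.le (by linarith) C hC hCr ε' hε'p
    filter_upwards [(Finset.eventually_all _).2 h1] with i hi y hy t ht
    have hterm : ∀ k ∈ K, Real.exp (l * (g (k + (y + t • v i)) - a))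
        ≤ Real.exp (l * (g (k + y) - a)) + E * (l * (M * |t| ^ (n + 1) + ε')) := by
      intro k hk
      have h2 := hi k hk y hy t ht
      rw [one_pow, mul_one] at h2
      rw [← add_assoc]
      set x := l * (g (k + y + t • v i) - a) with hx
      set x' := l * (g (k + y) - a) with hx'
      have h3 := Real.add_one_le_exp (x' - x)
      have h4 : Real.exp x * (x' - x + 1) ≤ Real.exp x' := by
        calc Real.exp x * (x' - x + 1) ≤ Real.exp x * Real.exp (x' - x) :=
              mul_le_mul_of_nonneg_left h3 (Real.exp_pos _).le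
          _ = Real.exp x' := by rw [← Real.exp_add]; congr 1; ring
      have h5 : Real.exp x ≤ E := by
        rw [hE]
        exact Real.exp_le_exp.2 (mul_le_mul_of_nonneg_left (by linarith [hg1 (k + y + t • v i)]) hl0)
      have h6 : x - x' ≤ l * (M * |t| ^ (n + 1) + ε') := by
        have : x - x' = l * (g (k + y + t • v i) - g (k + y)) := by
          rw [hx, hx']; ring
        rw [this]
        exact mul_le_mul_of_nonneg_left ((le_abs_self _).trans h2) hl0
      have h7 : 0 ≤ l * (M * |t| ^ (n + 1) + ε') := by positivity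
      have h8 : Real.exp x * (x - x') ≤ E * (l * (M * |t| ^ (n + 1) + ε')) := by
        calc Real.exp x * (x - x') ≤ Real.exp x * (l * (M * |t| ^ (n + 1) + ε')) :=
              mul_le_mul_of_nonneg_left h6 (Real.exp_pos _).le
          _ ≤ E * (l * (M * |t| ^ (n + 1) + ε')) := mul_le_mul_of_nonneg_right h5 h7
      nlinarith [h4, h8]
    have hsum := Finset.sum_le_sum hterm
    rw [Finset.sum_add_distrib, Finset.sum_const, nsmul_eq_mul] at hsum
    have h9 : κ * (E * (l * (M * |t| ^ (n + 1) + ε')))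
        ≤ M' * |t| ^ (n + 1) + ε := by
      have h10 : κ * (E * (l * (M * |t| ^ (n + 1) + ε')))
          = κ * (E * (l * M)) * |t| ^ (n + 1) + κ * (E * l) * ε' := by ring
      have h11 : κ * (E * l) * ε' ≤ ε := by
        calc κ * (E * l) * ε' ≤ (κ * (E * l) + 1) * ε' :=
              mul_le_mul_of_nonneg_right (by linarith) hε'p.le
          _ = ε := by rw [hε']; field_simp
      have h12 : κ * (E * (l * M)) * |t| ^ (n + 1) ≤ M' * |t| ^ (n + 1) :=
        mul_le_mul_of_nonneg_right (by rw [hM']; linarith) (by positivity)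
      linarith
    show ∑ k ∈ K, Real.exp (l * (g (k + (y + t • v i)) - a))
      ≤ ∑ k ∈ K, Real.exp (l * (g (k + y) - a)) + M' * |t| ^ (n + 1) + ε
    linarith
  -- the subsequence
  obtain ⟨f, hf⟩ := exists_seq_finset (fun (s : Finset ℕ) (y : ℕ) => (∀ x ∈ s, x < y) ∧
      ∀ z ∈ closedBall (0 : X) r ∩ (Submodule.span ℝ ((s.image v : Finset X) : Set X) : Set X),
        ∀ t : ℝ, |t| ≤ r →
          Φ (z + t • v y) ≤ Φ z + M' * |t| ^ (n + 1) + (1 / 4 : ℝ) ^ (s.card + 1)) (by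
    intro s
    have h1 := hstep _ (compact_ball_span (s.image v) r)
      (fun y hy => mem_closedBall_zero_iff.1 hy.1) ((1 / 4 : ℝ) ^ (s.card + 1)) (by positivity)
    have h2 : ∀ᶠ y in atTop, ∀ x ∈ s, x < y :=
      (Finset.eventually_all s).2 (fun x _ => eventually_gt_atTop x)
    exact (h2.and h1).exists)
  have hmono : StrictMono f := by
    apply strictMono_nat_of_lt_succ
    intro m
    exact (hf (m + 1)).1 (f m) (Finset.mem_image_of_mem _ (Finset.mem_range.2 (Nat.lt_succ_self m)))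
  set c : ℝ := min (r ^ (n + 1)) (1 / (2 * M')) with hc
  have hc0 : 0 < c := lt_min (by positivity) (by positivity)
  have hcM : M' * c ≤ 1 / 2 := by
    calc M' * c ≤ M' * (1 / (2 * M')) :=
          mul_le_mul_of_nonneg_left (min_le_right _ _) (by linarith)
      _ = 1 / 2 := by field_simp
  have key : ∀ a' : ℕ → ℝ, (∀ m, ∑ k ∈ Finset.range m, |a' k| ^ (n + 1) ≤ c) → ∀ m : ℕ,
      ‖∑ k ∈ Finset.range m, a' k • v (f k)‖ < r ∧
      Φ (∑ k ∈ Finset.range m, a' k • v (f k)) ≤ Φ 0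
        + M' * (∑ k ∈ Finset.range m, |a' k| ^ (n + 1))
        + ∑ k ∈ Finset.range m, (1 / 4 : ℝ) ^ (k + 1) := by
    intro a' ha' m
    induction m with
    | zero =>
      simp only [Finset.range_zero, Finset.sum_empty, norm_zero, mul_zero, add_zero]
      exact ⟨hr, le_rfl⟩
    | succ m ih =>
      obtain ⟨ih1, ih2⟩ := ih
      have hmem : ∑ k ∈ Finset.range m, a' k • v (f k) ∈ closedBall (0 : X) r ∩
          (Submodule.span ℝ ((((Finset.range m).image f).image v : Finset X) : Set X) : Set X) := by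
        refine ⟨mem_closedBall_zero_iff.2 ih1.le, ?_⟩
        apply Submodule.sum_mem
        intro k hk
        exact Submodule.smul_mem _ _ (Submodule.subset_span (Finset.mem_coe.2
          (Finset.mem_image_of_mem _ (Finset.mem_image_of_mem _ hk))))
      have ham : |a' m| ≤ r := by
        have h1 : |a' m| ^ (n + 1) ≤ ∑ k ∈ Finset.range (m + 1), |a' k| ^ (n + 1) :=
          Finset.single_le_sum (f := fun k => |a' k| ^ (n + 1)) (fun _ _ => by positivity)
            (Finset.mem_range.2 (Nat.lt_succ_self m))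
        have h2 : |a' m| ^ (n + 1) ≤ r ^ (n + 1) := h1.trans ((ha' _).trans (min_le_left _ _))
        exact (pow_le_pow_iff_left₀ (abs_nonneg _) hr.le (Nat.succ_ne_zero n)).1 h2
      have h3 := (hf m).2 _ hmem (a' m) ham
      rw [Finset.card_image_of_injective _ hmono.injective, Finset.card_range,
        ← Finset.sum_range_succ (fun k => a' k • v (f k)) m] at h3
      have h4 : Φ (∑ k ∈ Finset.range (m + 1), a' k • v (f k)) ≤ Φ 0
          + M' * (∑ k ∈ Finset.range (m + 1), |a' k| ^ (n + 1))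
          + ∑ k ∈ Finset.range (m + 1), (1 / 4 : ℝ) ^ (k + 1) := by
        rw [Finset.sum_range_succ (fun k => |a' k| ^ (n + 1)),
          Finset.sum_range_succ (fun k => (1 / 4 : ℝ) ^ (k + 1))]
        linarith
      refine ⟨?_, h4⟩
      by_contra hcon
      push Not at hcon
      have h5 := hΦfar _ hcon
      have h6 := geo_quarter (m + 1)
      have h7 : M' * (∑ k ∈ Finset.range (m + 1), |a' k| ^ (n + 1)) ≤ M' * c :=
        mul_le_mul_of_nonneg_left (ha' _) (by linarith)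
      linarith
  refine ⟨f, c, r, hmono, hc0, hr, ?_⟩
  intro F a₀ ha₀
  let a' : ℕ → ℝ := fun k => if k ∈ F then a₀ k else 0
  have hF : F ⊆ Finset.range (F.sup id + 1) := by
    intro i hi
    exact Finset.mem_range.2 (Nat.lt_succ_of_le (Finset.le_sup (f := id) hi))
  have h1 : ∀ m, ∑ k ∈ Finset.range m, |a' k| ^ (n + 1) ≤ c := by
    intro m
    have e : ∀ k, |a' k| ^ (n + 1) = if k ∈ F then |a₀ k| ^ (n + 1) else 0 := by
      intro k
      show |if k ∈ F then a₀ k else 0| ^ (n + 1) = _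
      split_ifs with hk
      · rfl
      · rw [abs_zero, zero_pow (Nat.succ_ne_zero n)]
    simp_rw [e]
    rw [← Finset.sum_filter]
    refine le_trans ?_ ha₀
    apply Finset.sum_le_sum_of_subset_of_nonneg
    · intro k hk
      exact (Finset.mem_filter.1 hk).2
    · intro k _ _
      positivity
  have h2 := (key a' h1 (F.sup id + 1)).1
  have h3 : ∑ k ∈ F, a₀ k • v (f k) = ∑ k ∈ Finset.range (F.sup id + 1), a' k • v (f k) := by
    have h4 : ∑ k ∈ F, a₀ k • v (f k) = ∑ k ∈ F, a' k • v (f k) := by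
      apply Finset.sum_congr rfl
      intro k hk
      show _ = (if k ∈ F then a₀ k else 0) • v (f k)
      rw [if_pos hk]
    rw [h4]
    apply Finset.sum_subset hF
    intro k _ hk
    show (if k ∈ F then a₀ k else 0) • v (f k) = 0
    rw [if_neg hk, zero_smul]
  rw [h3]
  exact h2.le

end Pool.Helper570.Hyp
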